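import Mathlib

set_option autoImplicit false

/-!
# Estimates for the local quantities at a large parameter
-/

namespace Pool.Agent.MPf2967f.Fin

section

variable {k : ℕ} [NeZero k]

lemma sup_le {u : ZMod k → ℂ} {A δ C : ℝ} (hδ0 : 0 ≤ δ) (hδ : δ < 1) (hA : 0 ≤ A)
    (hC : A ≤ (1 - δ) * C) (h : ∀ j, ‖u j‖ ≤ A + δ * ‖u‖) : ‖u‖ ≤ C := by
  have h1 : ‖u‖ ≤ A + δ * ‖u‖ := by
    rw [pi_norm_le_iff_of_nonneg (by positivity)]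
    exact h
  have h2 : (1 - δ) * ‖u‖ ≤ (1 - δ) * C := by linarith
  exact le_of_mul_le_mul_left h2 (by linarith)

lemma div_bound {x y : ℂ} {c A : ℝ} (hc : 0 < c) (hx : c ≤ ‖x‖) (h : ‖x * y‖ ≤ c * A) : ‖y‖ ≤ A := by
  rw [norm_mul] at h
  have h1 : c * ‖y‖ ≤ ‖x‖ * ‖y‖ := by gcongr
  exact le_of_mul_le_mul_left (h1.trans h) hc

/-- The local equations. -/
structure Loc (k : ℕ) [NeZero k] (ϖ : ℂ) (b E F G H P a γ γ' η Δ μ A Γ d : ZMod k → ℂ) : Prop where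
  hb : ∀ j, b j ^ 2 = 1 + 2 * ϖ * (b (j + 1) + b (j - 1))
  hEF : ∀ j, E j * F j = 1
  hGH : ∀ j, G j * H j = 1
  hF : ∀ j, ‖F j‖ ≤ 1.042
  hH : ∀ j, ‖H j‖ ≤ 1.042
  e0 : ∀ j, E j = b j - ϖ ^ 2 * F (j - 1)
  e0' : ∀ j, G j = b j - ϖ ^ 2 * H (j + 1)
  eP : ∀ j, E j * P j = 1 + ϖ ^ 2 * P (j + 1) * F j
  e1 : ∀ j, b j * a j = ϖ * (a (j + 1) + a (j - 1)) - 2 * P j
  e2 : ∀ j, E j ^ 2 * γ (j + 1) = 1 + ϖ * b j * γ j - ϖ ^ 4 * F (j - 1) ^ 2 * γ (j - 1)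
  e2' : ∀ j, G j ^ 2 * γ' (j - 1) = 1 + ϖ * b j * γ' j - ϖ ^ 4 * H (j + 1) ^ 2 * γ' (j + 1)
  e3 : ∀ j, E j ^ 3 * η (j + 1) = 2 * γ j + ϖ ^ 2 * b j * η j - ϖ ^ 6 * F (j - 1) ^ 3 * η (j - 1)
  e4 : ∀ j, E j * Δ j = 2 * a j + 2 * ϖ * γ j * P j + ϖ ^ 2 * F (j - 1) * Δ (j - 1)
  e5 : ∀ j, E j * P j * (μ j + Δ j) = ϖ ^ 2 * P (j + 1) * F j * (μ (j + 1) - Δ j) -
    2 * ϖ * γ (j + 1) * γ' j * (E j * P j) ^ 2 + 2 * ϖ ^ 5 * γ j * γ' (j + 1) * (P (j + 1) * F j) ^ 2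
  e6 : ∀ j, b j * A j = ϖ * (A (j + 1) + A (j - 1)) - 2 * P j * μ j - a j ^ 2 -
    2 * ϖ ^ 2 * γ j * γ' j * P j ^ 2
  e7 : ∀ j, E j ^ 2 * (2 * Δ j * γ (j + 1) + Γ (j + 1)) +
    ϖ ^ 4 * F (j - 1) ^ 2 * (-(2 * Δ (j - 1) * γ (j - 1)) + Γ (j - 1)) - ϖ * b j * Γ j =
    2 * ϖ ^ 3 * P j * η j + 2 * ϖ * a j * γ j
  e8 : ∀ j, E j * d j = ϖ ^ 2 * F (j - 1) * d (j - 1) - E j * Δ j ^ 2 / 2 -
    ϖ ^ 2 * F (j - 1) * Δ (j - 1) ^ 2 / 2 + 2 * A j + 2 * ϖ * P j * γ j * μ j +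
    2 * ϖ * P j * Γ j + 2 * ϖ ^ 4 * η j * γ' j * P j ^ 2

namespace Loc

variable {ϖ : ℂ} {b E F G H P a γ γ' η Δ μ A Γ d : ZMod k → ℂ}

section

variable (L : Loc k ϖ b E F G H P a γ γ' η Δ μ A Γ d) (hω : ‖ϖ‖ ≤ 1 / 100)

include L hω

lemma b_le (j : ZMod k) : ‖b j‖ ≤ 1.04 := by
  have h0 := norm_nonneg ϖ
  have hM : ‖b‖ ≤ 1.04 := by
    obtain ⟨i, hi⟩ := Finite.exists_max (fun j => ‖b j‖)
    have hbi : ‖b‖ = ‖b i‖ := le_antisymm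
      ((pi_norm_le_iff_of_nonneg (norm_nonneg _)).mpr hi) (norm_le_pi_norm b i)
    have h1 := congrArg norm (L.hb i)
    rw [norm_pow] at h1
    have h2 : ‖1 + 2 * ϖ * (b (i + 1) + b (i - 1))‖ ≤ 1 + 2 * ‖ϖ‖ * (‖b i‖ + ‖b i‖) := by
      refine (norm_add_le _ _).trans ?_
      rw [norm_one, norm_mul, norm_mul, Complex.norm_ofNat]
      have := (norm_add_le (b (i + 1)) (b (i - 1))).trans (add_le_add (hi _) (hi _))
      gcongr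
    rw [← h1] at h2
    rw [hbi]
    by_contra hcon
    push Not at hcon
    nlinarith [norm_nonneg (b i)]
  exact (norm_le_pi_norm b j).trans hM

lemma bsq (j : ZMod k) : ‖b j ^ 2 - 1‖ ≤ 4.16 * ‖ϖ‖ := by
  rw [L.hb j]
  have h1 := L.b_le hω (j + 1)
  have h2 := L.b_le hω (j - 1)
  have h3 : ‖1 + 2 * ϖ * (b (j + 1) + b (j - 1)) - 1‖ ≤ 2 * ‖ϖ‖ * (1.04 + 1.04) := by
    rw [add_sub_cancel_left, norm_mul, norm_mul, Complex.norm_ofNat]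
    have := (norm_add_le (b (j + 1)) (b (j - 1))).trans (add_le_add h1 h2)
    gcongr
  linarith

lemma b_ge (j : ZMod k) : 0.97 ≤ ‖b j‖ := by
  have h1 := L.bsq hω j
  have h2 : 1 - ‖b j ^ 2 - 1‖ ≤ ‖b j ^ 2‖ := by
    have := norm_sub_le (b j ^ 2) (b j ^ 2 - 1)
    rw [sub_sub_cancel, norm_one] at this
    linarith
  rw [norm_pow] at h2
  by_contra hcon
  push Not at hcon
  nlinarith [norm_nonneg (b j)]

lemma E_sub (j : ZMod k) : ‖E j - b j‖ ≤ 0.0105 * ‖ϖ‖ := by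
  rw [L.e0 j, sub_sub_cancel_left, norm_neg, norm_mul, norm_pow]
  have h1 := L.hF (j - 1)
  have h0 := norm_nonneg ϖ
  have : ‖ϖ‖ ^ 2 * ‖F (j - 1)‖ ≤ ‖ϖ‖ ^ 2 * 1.042 := by gcongr
  nlinarith

lemma G_sub (j : ZMod k) : ‖G j - b j‖ ≤ 0.0105 * ‖ϖ‖ := by
  rw [L.e0' j, sub_sub_cancel_left, norm_neg, norm_mul, norm_pow]
  have h1 := L.hH (j + 1)
  have h0 := norm_nonneg ϖ
  have : ‖ϖ‖ ^ 2 * ‖H (j + 1)‖ ≤ ‖ϖ‖ ^ 2 * 1.042 := by gcongr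
  nlinarith

lemma E_ge (j : ZMod k) : 0.96 ≤ ‖E j‖ := by
  have h1 := L.b_ge hω j
  have h2 := L.E_sub hω j
  have h3 := norm_sub_norm_le (b j) (E j)
  rw [norm_sub_rev] at h3
  linarith

lemma G_ge (j : ZMod k) : 0.96 ≤ ‖G j‖ := by
  have h1 := L.b_ge hω j
  have h2 := L.G_sub hω j
  have h3 := norm_sub_norm_le (b j) (G j)
  rw [norm_sub_rev] at h3
  linarith

lemma E_le (j : ZMod k) : ‖E j‖ ≤ 1.05 := by
  have h1 := L.b_le hω j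
  have h2 := L.E_sub hω j
  have h3 := norm_sub_norm_le (E j) (b j)
  linarith

lemma bE (j : ZMod k) : ‖b j * E j - 1‖ ≤ 4.2 * ‖ϖ‖ := by
  have h1 := L.bsq hω j
  have h2 := L.E_sub hω j
  have h3 := L.b_le hω j
  have h0 := norm_nonneg ϖ
  have e : b j * E j - 1 = (b j ^ 2 - 1) + b j * (E j - b j) := by ring
  rw [e]
  refine (norm_add_le _ _).trans ?_
  rw [norm_mul]
  have : ‖b j‖ * ‖E j - b j‖ ≤ 1.04 * (0.0105 * ‖ϖ‖) := by gcongr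
  linarith

lemma Esq (j : ZMod k) : ‖E j ^ 2 - 1‖ ≤ 4.2 * ‖ϖ‖ := by
  have h1 := L.bsq hω j
  have h2 := L.E_sub hω j
  have h3 := L.b_le hω j
  have h4 := L.E_le hω j
  have h0 := norm_nonneg ϖ
  have e : E j ^ 2 - 1 = (b j ^ 2 - 1) + (E j - b j) * (E j + b j) := by ring
  rw [e]
  refine (norm_add_le _ _).trans ?_
  rw [norm_mul]
  have h5 := norm_add_le (E j) (b j)
  have : ‖E j - b j‖ * ‖E j + b j‖ ≤ (0.0105 * ‖ϖ‖) * (1.05 + 1.04) := by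
    gcongr
    linarith
  linarith

lemma P_le (j : ZMod k) : ‖P j‖ ≤ 1.05 := by
  have h0 := norm_nonneg ϖ
  have hP : ‖P‖ ≤ 1.05 := by
    refine sup_le (A := 1 / 0.96) (δ := 0.0002) (by norm_num) (by norm_num) (by norm_num)
      (by norm_num) (fun j => ?_)
    refine div_bound (by norm_num) (L.E_ge hω j) ?_
    rw [L.eP j]
    refine (norm_add_le _ _).trans ?_
    rw [norm_one, norm_mul, norm_mul, norm_pow]
    have h1 := L.hF j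
    have h2 := norm_le_pi_norm P (j + 1)
    have h3 : ‖ϖ‖ ^ 2 * ‖P (j + 1)‖ * ‖F j‖ ≤ (1 / 100) ^ 2 * ‖P‖ * 1.042 := by gcongr
    have := norm_nonneg P
    nlinarith
  exact (norm_le_pi_norm P j).trans hP

lemma EP (j : ZMod k) : ‖E j * P j - 1‖ ≤ 0.011 * ‖ϖ‖ := by
  rw [L.eP j, add_sub_cancel_left, norm_mul, norm_mul, norm_pow]
  have h1 := L.hF j
  have h2 := L.P_le hω (j + 1)
  have h0 := norm_nonneg ϖ
  have h3 : ‖ϖ‖ ^ 2 * ‖P (j + 1)‖ * ‖F j‖ ≤ ‖ϖ‖ ^ 2 * 1.05 * 1.042 := by gcongr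
  nlinarith

lemma a_le (j : ZMod k) : ‖a j‖ ≤ 2.22 := by
  have h0 := norm_nonneg ϖ
  have hP : ‖a‖ ≤ 2.22 := by
    refine sup_le (A := 2.1 / 0.97) (δ := 0.0207) (by norm_num) (by norm_num) (by norm_num)
      (by norm_num) (fun j => ?_)
    refine div_bound (by norm_num) (L.b_ge hω j) ?_
    rw [L.e1 j]
    refine (norm_sub_le _ _).trans ?_
    rw [norm_mul, norm_mul, Complex.norm_ofNat]
    have h1 := L.P_le hω j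
    have h2 := (norm_add_le (a (j + 1)) (a (j - 1))).trans
      (add_le_add (norm_le_pi_norm a (j + 1)) (norm_le_pi_norm a (j - 1)))
    have h3 : ‖ϖ‖ * ‖a (j + 1) + a (j - 1)‖ ≤ (1 / 100) * (‖a‖ + ‖a‖) := by gcongr
    have := norm_nonneg a
    nlinarith
  exact (norm_le_pi_norm a j).trans hP

lemma ba (j : ZMod k) : ‖b j * a j + 2 * P j‖ ≤ 4.44 * ‖ϖ‖ := by
  rw [L.e1 j, sub_add_cancel, norm_mul]
  have h0 := norm_nonneg ϖ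
  have h2 := (norm_add_le (a (j + 1)) (a (j - 1))).trans
      (add_le_add (L.a_le hω (j + 1)) (L.a_le hω (j - 1)))
  have h3 : ‖ϖ‖ * ‖a (j + 1) + a (j - 1)‖ ≤ ‖ϖ‖ * (2.22 + 2.22) := by gcongr
  linarith

lemma bE_ge (j : ZMod k) : 0.931 ≤ ‖b j * E j‖ := by
  rw [norm_mul]
  have h1 := L.b_ge hω j
  have h2 := L.E_ge hω j
  have : (0.97 : ℝ) * 0.96 ≤ ‖b j‖ * ‖E j‖ := by gcongr
  linarith

lemma Esq_ge (j : ZMod k) : 0.9216 ≤ ‖E j ^ 2‖ := by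
  rw [norm_pow]
  have h2 := L.E_ge hω j
  have : (0.96 : ℝ) ^ 2 ≤ ‖E j‖ ^ 2 := by gcongr
  linarith

lemma Gsq_ge (j : ZMod k) : 0.9216 ≤ ‖G j ^ 2‖ := by
  rw [norm_pow]
  have h2 := L.G_ge hω j
  have : (0.96 : ℝ) ^ 2 ≤ ‖G j‖ ^ 2 := by gcongr
  linarith

lemma Ecb_ge (j : ZMod k) : 0.8847 ≤ ‖E j ^ 3‖ := by
  rw [norm_pow]
  have h2 := L.E_ge hω j
  have : (0.96 : ℝ) ^ 3 ≤ ‖E j‖ ^ 3 := by gcongr
  linarith

lemma a_add (j : ZMod k) : ‖a j + 2‖ ≤ 14.06 * ‖ϖ‖ := by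
  have h0 := norm_nonneg ϖ
  have h1 := L.ba hω j
  have h2 := L.bE hω j
  have h3 := L.EP hω j
  have h4 := L.E_le hω j
  refine div_bound (by norm_num) (L.bE_ge hω j) ?_
  have e : b j * E j * (a j + 2) = E j * (b j * a j + 2 * P j) - 2 * (E j * P j - 1) +
      2 * (b j * E j - 1) := by ring
  rw [e]
  refine (norm_add_le _ _).trans ((add_le_add_left (norm_sub_le _ _) _).trans ?_)
  rw [norm_mul, norm_mul, norm_mul, Complex.norm_ofNat]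
  have h5 : ‖E j‖ * ‖b j * a j + 2 * P j‖ ≤ 1.05 * (4.44 * ‖ϖ‖) := by gcongr
  linarith

lemma γ_le (j : ZMod k) : ‖γ j‖ ≤ 1.1 := by
  have h0 := norm_nonneg ϖ
  have hP : ‖γ‖ ≤ 1.1 := by
    refine sup_le (A := 1 / 0.9216) (δ := 0.012) (by norm_num) (by norm_num) (by norm_num)
      (by norm_num) (fun j => ?_)
    obtain ⟨j, rfl⟩ : ∃ i, j = i + 1 := ⟨j - 1, by ring⟩
    refine div_bound (by norm_num) (L.Esq_ge hω j) ?_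
    rw [L.e2 j]
    refine (norm_sub_le _ _).trans ((add_le_add_left (norm_add_le _ _) _).trans ?_)
    rw [norm_one]
    simp only [norm_mul, norm_pow]
    have h1 := L.b_le hω j
    have h2 := norm_le_pi_norm γ j
    have h3 := norm_le_pi_norm γ (j - 1)
    have h4 := L.hF (j - 1)
    have h5 : ‖ϖ‖ * ‖b j‖ * ‖γ j‖ ≤ (1 / 100) * 1.04 * ‖γ‖ := by gcongr
    have h6 : ‖ϖ‖ ^ 4 * ‖F (j - 1)‖ ^ 2 * ‖γ (j - 1)‖ ≤ (1 / 100) ^ 4 * 1.042 ^ 2 * ‖γ‖ := by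
      gcongr
    have := norm_nonneg γ
    nlinarith
  exact (norm_le_pi_norm γ j).trans hP

lemma γ'_le (j : ZMod k) : ‖γ' j‖ ≤ 1.1 := by
  have h0 := norm_nonneg ϖ
  have hP : ‖γ'‖ ≤ 1.1 := by
    refine sup_le (A := 1 / 0.9216) (δ := 0.012) (by norm_num) (by norm_num) (by norm_num)
      (by norm_num) (fun j => ?_)
    obtain ⟨j, rfl⟩ : ∃ i, j = i - 1 := ⟨j + 1, by ring⟩
    refine div_bound (by norm_num) (L.Gsq_ge hω j) ?_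
    rw [L.e2' j]
    refine (norm_sub_le _ _).trans ((add_le_add_left (norm_add_le _ _) _).trans ?_)
    rw [norm_one]
    simp only [norm_mul, norm_pow]
    have h1 := L.b_le hω j
    have h2 := norm_le_pi_norm γ' j
    have h3 := norm_le_pi_norm γ' (j + 1)
    have h4 := L.hH (j + 1)
    have h5 : ‖ϖ‖ * ‖b j‖ * ‖γ' j‖ ≤ (1 / 100) * 1.04 * ‖γ'‖ := by gcongr
    have h6 : ‖ϖ‖ ^ 4 * ‖H (j + 1)‖ ^ 2 * ‖γ' (j + 1)‖ ≤ (1 / 100) ^ 4 * 1.042 ^ 2 * ‖γ'‖ := by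
      gcongr
    have := norm_nonneg γ'
    nlinarith
  exact (norm_le_pi_norm γ' j).trans hP

lemma η_le (j : ZMod k) : ‖η j‖ ≤ 2.5 := by
  have h0 := norm_nonneg ϖ
  have hP : ‖η‖ ≤ 2.5 := by
    refine sup_le (A := 2.2 / 0.8847) (δ := 0.0002) (by norm_num) (by norm_num) (by norm_num)
      (by norm_num) (fun j => ?_)
    obtain ⟨j, rfl⟩ : ∃ i, j = i + 1 := ⟨j - 1, by ring⟩
    refine div_bound (by norm_num) (L.Ecb_ge hω j) ?_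
    rw [L.e3 j]
    refine (norm_sub_le _ _).trans ((add_le_add_left (norm_add_le _ _) _).trans ?_)
    simp only [norm_mul, norm_pow, Complex.norm_ofNat]
    have h1 := L.b_le hω j
    have h2 := norm_le_pi_norm η j
    have h3 := norm_le_pi_norm η (j - 1)
    have h4 := L.hF (j - 1)
    have h7 := L.γ_le hω j
    have h5 : ‖ϖ‖ ^ 2 * ‖b j‖ * ‖η j‖ ≤ (1 / 100) ^ 2 * 1.04 * ‖η‖ := by gcongr
    have h6 : ‖ϖ‖ ^ 6 * ‖F (j - 1)‖ ^ 3 * ‖η (j - 1)‖ ≤ (1 / 100) ^ 6 * 1.042 ^ 3 * ‖η‖ := by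
      gcongr
    have := norm_nonneg η
    nlinarith
  exact (norm_le_pi_norm η j).trans hP

lemma Δ_le (j : ZMod k) : ‖Δ j‖ ≤ 4.66 := by
  have h0 := norm_nonneg ϖ
  have hP : ‖Δ‖ ≤ 4.66 := by
    refine sup_le (A := 4.4632 / 0.96) (δ := 0.0002) (by norm_num) (by norm_num) (by norm_num)
      (by norm_num) (fun j => ?_)
    refine div_bound (by norm_num) (L.E_ge hω j) ?_
    rw [L.e4 j]
    refine (norm_add_le _ _).trans ((add_le_add_left (norm_add_le _ _) _).trans ?_)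
    simp only [norm_mul, norm_pow, Complex.norm_ofNat]
    have h1 := L.a_le hω j
    have h2 := L.γ_le hω j
    have h3 := L.P_le hω j
    have h4 := L.hF (j - 1)
    have h7 := norm_le_pi_norm Δ (j - 1)
    have h5 : 2 * ‖ϖ‖ * ‖γ j‖ * ‖P j‖ ≤ 2 * (1 / 100) * 1.1 * 1.05 := by gcongr
    have h6 : ‖ϖ‖ ^ 2 * ‖F (j - 1)‖ * ‖Δ (j - 1)‖ ≤ (1 / 100) ^ 2 * 1.042 * ‖Δ‖ := by
      gcongr
    have := norm_nonneg Δ
    nlinarith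
  exact (norm_le_pi_norm Δ j).trans hP

lemma EΔ (j : ZMod k) : ‖E j * Δ j + 4‖ ≤ 30.6 * ‖ϖ‖ := by
  have h0 := norm_nonneg ϖ
  have e : E j * Δ j + 4 = 2 * (a j + 2) + 2 * ϖ * γ j * P j + ϖ ^ 2 * F (j - 1) * Δ (j - 1) := by
    rw [L.e4 j]; ring
  rw [e]
  refine (norm_add_le _ _).trans ((add_le_add_left (norm_add_le _ _) _).trans ?_)
  simp only [norm_mul, norm_pow, Complex.norm_ofNat]
  have h1 := L.a_add hω j
  have h2 := L.γ_le hω j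
  have h3 := L.P_le hω j
  have h4 := L.hF (j - 1)
  have h7 := L.Δ_le hω (j - 1)
  have h5 : 2 * ‖ϖ‖ * ‖γ j‖ * ‖P j‖ ≤ 2 * ‖ϖ‖ * 1.1 * 1.05 := by gcongr
  have h6 : ‖ϖ‖ ^ 2 * ‖F (j - 1)‖ * ‖Δ (j - 1)‖ ≤ ‖ϖ‖ ^ 2 * 1.042 * 4.66 := by
    gcongr
  nlinarith

lemma EP_ge (j : ZMod k) : 0.999 ≤ ‖E j * P j‖ := by
  have h1 := L.EP hω j
  have h2 := norm_sub_norm_le (1 : ℂ) (E j * P j)
  rw [norm_one, norm_sub_rev] at h2
  linarith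

lemma EP_le (j : ZMod k) : ‖E j * P j‖ ≤ 1.001 := by
  have h1 := L.EP hω j
  have h2 := norm_sub_norm_le (E j * P j) (1 : ℂ)
  rw [norm_one] at h2
  linarith

lemma rhs5 (j : ZMod k) : ‖E j * P j * (μ j + Δ j)‖ ≤ 1.1 * ‖ϖ‖ ^ 2 * (‖μ‖ + 4.66) +
    2.43 * ‖ϖ‖ := by
  have h0 := norm_nonneg ϖ
  rw [L.e5 j]
  refine (norm_add_le _ _).trans ((add_le_add_left (norm_sub_le _ _) _).trans ?_)
  simp only [norm_mul, norm_pow, Complex.norm_ofNat]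
  have h1 := L.γ_le hω j
  have h2 := L.γ_le hω (j + 1)
  have h3 := L.γ'_le hω j
  have h4 := L.γ'_le hω (j + 1)
  have h5 := L.P_le hω (j + 1)
  have h6 := L.hF j
  have h7 := L.EP_le hω j
  rw [norm_mul] at h7
  have h8 : ‖μ (j + 1) - Δ j‖ ≤ ‖μ‖ + 4.66 :=
    (norm_sub_le _ _).trans (add_le_add (norm_le_pi_norm μ _) (L.Δ_le hω j))
  have t1 : ‖ϖ‖ ^ 2 * ‖P (j + 1)‖ * ‖F j‖ * ‖μ (j + 1) - Δ j‖ ≤
      ‖ϖ‖ ^ 2 * 1.05 * 1.042 * (‖μ‖ + 4.66) := by gcongr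
  have t2 : 2 * ‖ϖ‖ * ‖γ (j + 1)‖ * ‖γ' j‖ * (‖E j‖ * ‖P j‖) ^ 2 ≤
      2 * ‖ϖ‖ * 1.1 * 1.1 * 1.001 ^ 2 := by gcongr
  have t3 : 2 * ‖ϖ‖ ^ 5 * ‖γ j‖ * ‖γ' (j + 1)‖ * (‖P (j + 1)‖ * ‖F j‖) ^ 2 ≤
      2 * ‖ϖ‖ ^ 5 * 1.1 * 1.1 * (1.05 * 1.042) ^ 2 := by gcongr
  have t4 : ‖ϖ‖ ^ 5 ≤ (1 / 100) ^ 4 * ‖ϖ‖ := by
    have : ‖ϖ‖ ^ 4 ≤ (1 / 100) ^ 4 := by gcongr
    calc ‖ϖ‖ ^ 5 = ‖ϖ‖ ^ 4 * ‖ϖ‖ := by ring
      _ ≤ _ := by gcongr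
  have := norm_nonneg μ
  nlinarith [mul_nonneg (pow_nonneg h0 2) this, pow_nonneg h0 2]

lemma μ_le (j : ZMod k) : ‖μ j‖ ≤ 4.7 := by
  have h0 := norm_nonneg ϖ
  have hP : ‖μ‖ ≤ 4.7 := by
    refine sup_le (A := 4.69) (δ := 0.0002) (by norm_num) (by norm_num) (by norm_num)
      (by norm_num) (fun j => ?_)
    have h1 := L.rhs5 hω j
    have h2 : ‖μ j + Δ j‖ ≤ (1.1 * ‖ϖ‖ ^ 2 * (‖μ‖ + 4.66) + 2.43 * ‖ϖ‖) / 0.999 := by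
      refine div_bound (c := 0.999) (by norm_num) (L.EP_ge hω j) ?_
      rw [mul_div_cancel₀ _ (by norm_num)]
      exact h1
    have h3 := norm_sub_norm_le (μ j) (-Δ j)
    rw [sub_neg_eq_add, norm_neg] at h3
    have h4 := L.Δ_le hω j
    have hμ := norm_nonneg μ
    have h5 : ‖ϖ‖ ^ 2 * (‖μ‖ + 4.66) ≤ (1 / 100) ^ 2 * (‖μ‖ + 4.66) := by gcongr
    have h6 : (1.1 * ‖ϖ‖ ^ 2 * (‖μ‖ + 4.66) + 2.43 * ‖ϖ‖) / 0.999 ≤
      (1.1 * ((1 / 100) ^ 2 * (‖μ‖ + 4.66)) + 2.43 * (1 / 100)) / 0.999 := by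
      refine div_le_div_of_nonneg_right ?_ (by norm_num)
      nlinarith
    have h7 : (1.1 * ((1 / 100) ^ 2 * (‖μ‖ + 4.66)) + 2.43 * (1 / 100)) / 0.999 ≤
      0.0002 * ‖μ‖ + 0.03 := by
      rw [div_le_iff₀ (by norm_num)]
      nlinarith
    linarith
  exact (norm_le_pi_norm μ j).trans hP

lemma μΔ (j : ZMod k) : ‖μ j + Δ j‖ ≤ 2.6 * ‖ϖ‖ := by
  have h0 := norm_nonneg ϖ
  refine div_bound (c := 0.999) (by norm_num) (L.EP_ge hω j) ?_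
  have h1 := L.rhs5 hω j
  have h2 : ‖μ‖ ≤ 4.7 := by
    rw [pi_norm_le_iff_of_nonneg (by norm_num)]
    exact fun j => L.μ_le hω j
  nlinarith [pow_nonneg h0 2]

lemma PΔ (j : ZMod k) : ‖P j * Δ j + 4‖ ≤ 51.6 * ‖ϖ‖ := by
  have h0 := norm_nonneg ϖ
  refine div_bound (by norm_num) (L.Esq_ge hω j) ?_
  have e : E j ^ 2 * (P j * Δ j + 4) = E j * P j * (E j * Δ j + 4) - 4 * (E j * P j - 1) +
      4 * (E j ^ 2 - 1) := by ring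
  rw [e]
  refine (norm_add_le _ _).trans ((add_le_add_left (norm_sub_le _ _) _).trans ?_)
  have h1 := L.EP_le hω j
  have h2 := L.EΔ hω j
  have h3 := L.EP hω j
  have h4 := L.Esq hω j
  rw [norm_mul, norm_mul (4 : ℂ), norm_mul (4 : ℂ), Complex.norm_ofNat]
  have t1 : ‖E j * P j‖ * ‖E j * Δ j + 4‖ ≤ 1.001 * (30.6 * ‖ϖ‖) := by gcongr
  linarith

lemma Pμ (j : ZMod k) : ‖2 * P j * μ j - 8‖ ≤ 108.7 * ‖ϖ‖ := by
  have h0 := norm_nonneg ϖ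
  have e : 2 * P j * μ j - 8 = 2 * P j * (μ j + Δ j) - 2 * (P j * Δ j + 4) := by ring
  rw [e]
  refine (norm_sub_le _ _).trans ?_
  have h1 := L.P_le hω j
  have h2 := L.μΔ hω j
  have h3 := L.PΔ hω j
  rw [norm_mul, norm_mul, norm_mul, Complex.norm_ofNat]
  have t1 : 2 * ‖P j‖ * ‖μ j + Δ j‖ ≤ 2 * 1.05 * (2.6 * ‖ϖ‖) := by gcongr
  linarith

lemma asq (j : ZMod k) : ‖a j ^ 2 - 4‖ ≤ 59.4 * ‖ϖ‖ := by
  have h0 := norm_nonneg ϖ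
  have e : a j ^ 2 - 4 = (a j + 2) * (a j - 2) := by ring
  rw [e, norm_mul]
  have h1 := L.a_add hω j
  have h2 : ‖a j - 2‖ ≤ 4.22 := by
    refine (norm_sub_le _ _).trans ?_
    rw [Complex.norm_ofNat]
    linarith [L.a_le hω j]
  have t1 : ‖a j + 2‖ * ‖a j - 2‖ ≤ (14.06 * ‖ϖ‖) * 4.22 := by gcongr
  linarith

lemma rhs6 (j : ZMod k) : ‖2 * P j * μ j + a j ^ 2 + 2 * ϖ ^ 2 * γ j * γ' j * P j ^ 2 - 12‖ ≤
    168.2 * ‖ϖ‖ := by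
  have h0 := norm_nonneg ϖ
  have e : 2 * P j * μ j + a j ^ 2 + 2 * ϖ ^ 2 * γ j * γ' j * P j ^ 2 - 12 =
    (2 * P j * μ j - 8) + (a j ^ 2 - 4) + 2 * ϖ ^ 2 * γ j * γ' j * P j ^ 2 := by ring
  rw [e]
  refine (norm_add_le _ _).trans ((add_le_add_left (norm_add_le _ _) _).trans ?_)
  have h1 := L.Pμ hω j
  have h2 := L.asq hω j
  have h3 := L.γ_le hω j
  have h4 := L.γ'_le hω j
  have h5 := L.P_le hω j
  have t1 : ‖2 * ϖ ^ 2 * γ j * γ' j * P j ^ 2‖ ≤ 2 * ‖ϖ‖ ^ 2 * 1.1 * 1.1 * 1.05 ^ 2 := by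
    simp only [norm_mul, norm_pow, Complex.norm_ofNat]
    gcongr
  nlinarith

lemma A_le (j : ZMod k) : ‖A j‖ ≤ 14.5 := by
  have h0 := norm_nonneg ϖ
  have hP : ‖A‖ ≤ 14.5 := by
    refine sup_le (A := 13.69 / 0.97) (δ := 0.0207) (by norm_num) (by norm_num) (by norm_num)
      (by norm_num) (fun j => ?_)
    refine div_bound (by norm_num) (L.b_ge hω j) ?_
    have e : b j * A j = ϖ * (A (j + 1) + A (j - 1)) - ((2 * P j * μ j + a j ^ 2 +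
        2 * ϖ ^ 2 * γ j * γ' j * P j ^ 2 - 12) + 12) := by
      rw [L.e6 j]; ring
    rw [e]
    refine (norm_sub_le _ _).trans ((add_le_add_right (norm_add_le _ _) _).trans ?_)
    rw [norm_mul, Complex.norm_ofNat]
    have h1 := L.rhs6 hω j
    have h2 := (norm_add_le (A (j + 1)) (A (j - 1))).trans
      (add_le_add (norm_le_pi_norm A (j + 1)) (norm_le_pi_norm A (j - 1)))
    have h3 : ‖ϖ‖ * ‖A (j + 1) + A (j - 1)‖ ≤ (1 / 100) * (‖A‖ + ‖A‖) := by gcongr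
    have := norm_nonneg A
    nlinarith
  exact (norm_le_pi_norm A j).trans hP

lemma bA (j : ZMod k) : ‖b j * A j + 12‖ ≤ 197.3 * ‖ϖ‖ := by
  have h0 := norm_nonneg ϖ
  have e : b j * A j + 12 = ϖ * (A (j + 1) + A (j - 1)) - (2 * P j * μ j + a j ^ 2 +
        2 * ϖ ^ 2 * γ j * γ' j * P j ^ 2 - 12) := by
      rw [L.e6 j]; ring
  rw [e]
  refine (norm_sub_le _ _).trans ?_
  rw [norm_mul]
  have h1 := L.rhs6 hω j
  have h2 := (norm_add_le (A (j + 1)) (A (j - 1))).trans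
      (add_le_add (L.A_le hω (j + 1)) (L.A_le hω (j - 1)))
  have h3 : ‖ϖ‖ * ‖A (j + 1) + A (j - 1)‖ ≤ ‖ϖ‖ * (14.5 + 14.5) := by gcongr
  linarith

lemma Γ_le (j : ZMod k) : ‖Γ j‖ ≤ 10.6 := by
  have h0 := norm_nonneg ϖ
  have hP : ‖Γ‖ ≤ 10.6 := by
    refine sup_le (A := 10.4) (δ := 0.012) (by norm_num) (by norm_num) (by norm_num)
      (by norm_num) (fun j => ?_)
    obtain ⟨j, rfl⟩ : ∃ i, j = i + 1 := ⟨j - 1, by ring⟩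
    have h1 := L.Δ_le hω j
    have h2 := L.γ_le hω (j + 1)
    have h3 := L.Δ_le hω (j - 1)
    have h4 := L.γ_le hω (j - 1)
    have h5 := L.hF (j - 1)
    have h6 := norm_le_pi_norm Γ (j - 1)
    have h7 := norm_le_pi_norm Γ j
    have h8 := L.b_le hω j
    have h9 := L.P_le hω j
    have h10 := L.η_le hω j
    have h11 := L.a_le hω j
    have h12 := L.γ_le hω j
    have key : ‖2 * Δ j * γ (j + 1) + Γ (j + 1)‖ ≤ (0.06 + 0.01041 * ‖Γ‖) / 0.9216 := by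
      refine div_bound (c := 0.9216) (by norm_num) (L.Esq_ge hω j) ?_
      rw [mul_div_cancel₀ _ (by norm_num)]
      have e : E j ^ 2 * (2 * Δ j * γ (j + 1) + Γ (j + 1)) = (2 * ϖ ^ 3 * P j * η j +
          2 * ϖ * a j * γ j + ϖ * b j * Γ j) -
          ϖ ^ 4 * F (j - 1) ^ 2 * (-(2 * Δ (j - 1) * γ (j - 1)) + Γ (j - 1)) := by
        linear_combination L.e7 j
      rw [e]
      refine (norm_sub_le _ _).trans ((add_le_add_left (norm_add₃_le) _).trans ?_)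
      have hx : ‖-(2 * Δ (j - 1) * γ (j - 1)) + Γ (j - 1)‖ ≤ 2 * 4.66 * 1.1 + ‖Γ‖ := by
        refine (norm_add_le _ _).trans ?_
        rw [norm_neg, norm_mul, norm_mul, Complex.norm_ofNat]
        gcongr
      simp only [norm_mul, norm_pow, Complex.norm_ofNat]
      have t1 : 2 * ‖ϖ‖ ^ 3 * ‖P j‖ * ‖η j‖ ≤ 2 * (1 / 100) ^ 3 * 1.05 * 2.5 := by gcongr
      have t2 : 2 * ‖ϖ‖ * ‖a j‖ * ‖γ j‖ ≤ 2 * (1 / 100) * 2.22 * 1.1 := by gcongr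
      have t3 : ‖ϖ‖ * ‖b j‖ * ‖Γ j‖ ≤ (1 / 100) * 1.04 * ‖Γ‖ := by gcongr
      have t4 : ‖ϖ‖ ^ 4 * ‖F (j - 1)‖ ^ 2 * ‖-(2 * Δ (j - 1) * γ (j - 1)) + Γ (j - 1)‖ ≤
        (1 / 100) ^ 4 * 1.042 ^ 2 * (2 * 4.66 * 1.1 + ‖Γ‖) := by gcongr
      have := norm_nonneg Γ
      nlinarith
    have h13 : ‖2 * Δ j * γ (j + 1)‖ ≤ 2 * 4.66 * 1.1 := by
      rw [norm_mul, norm_mul, Complex.norm_ofNat]
      gcongr
    have h14 := norm_sub_norm_le (Γ (j + 1)) (-(2 * Δ j * γ (j + 1)))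
    rw [sub_neg_eq_add, norm_neg, add_comm (Γ (j + 1))] at h14
    have hΓ := norm_nonneg Γ
    have h15 : (0.06 + 0.01041 * ‖Γ‖) / 0.9216 ≤ 0.07 + 0.012 * ‖Γ‖ := by
      rw [div_le_iff₀ (by norm_num)]
      nlinarith
    linarith
  exact (norm_le_pi_norm Γ j).trans hP

/-- the small part of the last equation -/
lemma small8 (j : ZMod k) : ‖2 * ϖ * P j * γ j * μ j + 2 * ϖ * P j * Γ j +
    2 * ϖ ^ 4 * η j * γ' j * P j ^ 2‖ ≤ 35 * ‖ϖ‖ := by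
  have h0 := norm_nonneg ϖ
  have h1 := L.P_le hω j
  have h2 := L.γ_le hω j
  have h3 := L.μ_le hω j
  have h4 := L.Γ_le hω j
  have h5 := L.η_le hω j
  have h6 := L.γ'_le hω j
  refine (norm_add₃_le).trans ?_
  simp only [norm_mul, norm_pow, Complex.norm_ofNat]
  have t1 : 2 * ‖ϖ‖ * ‖P j‖ * ‖γ j‖ * ‖μ j‖ ≤ 2 * ‖ϖ‖ * 1.05 * 1.1 * 4.7 := by gcongr
  have t2 : 2 * ‖ϖ‖ * ‖P j‖ * ‖Γ j‖ ≤ 2 * ‖ϖ‖ * 1.05 * 10.6 := by gcongr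
  have t3 : 2 * ‖ϖ‖ ^ 4 * ‖η j‖ * ‖γ' j‖ * ‖P j‖ ^ 2 ≤ 2 * ‖ϖ‖ ^ 4 * 2.5 * 1.1 * 1.05 ^ 2 := by
    gcongr
  have t4 : ‖ϖ‖ ^ 4 ≤ (1 / 100) ^ 3 * ‖ϖ‖ := by
    have : ‖ϖ‖ ^ 3 ≤ (1 / 100) ^ 3 := by gcongr
    calc ‖ϖ‖ ^ 4 = ‖ϖ‖ ^ 3 * ‖ϖ‖ := by ring
      _ ≤ _ := by gcongr
  nlinarith

lemma d_le (j : ZMod k) : ‖d j‖ ≤ 43 := by
  have h0 := norm_nonneg ϖ
  have hP : ‖d‖ ≤ 43 := by
    refine sup_le (A := 41 / 0.96) (δ := 0.0002) (by norm_num) (by norm_num) (by norm_num)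
      (by norm_num) (fun j => ?_)
    refine div_bound (by norm_num) (L.E_ge hω j) ?_
    have e : E j * d j = (2 * ϖ * P j * γ j * μ j + 2 * ϖ * P j * Γ j +
        2 * ϖ ^ 4 * η j * γ' j * P j ^ 2) + 2 * A j - E j * Δ j ^ 2 / 2 -
        ϖ ^ 2 * F (j - 1) * Δ (j - 1) ^ 2 / 2 + ϖ ^ 2 * F (j - 1) * d (j - 1) := by
      rw [L.e8 j]; ring
    rw [e]
    have h1 := L.small8 hω j
    have h2 := L.A_le hω j
    have h3 := L.E_le hω j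
    have h4 := L.Δ_le hω j
    have h5 := L.Δ_le hω (j - 1)
    have h6 := L.hF (j - 1)
    have h7 := norm_le_pi_norm d (j - 1)
    have t1 : ‖2 * A j‖ ≤ 29 := by
      rw [norm_mul, Complex.norm_ofNat]; linarith
    have t2 : ‖E j * Δ j ^ 2 / 2‖ ≤ 1.05 * 4.66 ^ 2 / 2 := by
      rw [norm_div, norm_mul, norm_pow, Complex.norm_ofNat]; gcongr
    have t3 : ‖ϖ ^ 2 * F (j - 1) * Δ (j - 1) ^ 2 / 2‖ ≤ (1 / 100) ^ 2 * 1.042 * 4.66 ^ 2 / 2 := by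
      rw [norm_div, norm_mul, norm_mul, norm_pow, norm_pow, Complex.norm_ofNat]; gcongr
    have t4 : ‖ϖ ^ 2 * F (j - 1) * d (j - 1)‖ ≤ (1 / 100) ^ 2 * 1.042 * ‖d‖ := by
      rw [norm_mul, norm_mul, norm_pow]; gcongr
    have s1 := norm_add_le ((2 * ϖ * P j * γ j * μ j + 2 * ϖ * P j * Γ j +
        2 * ϖ ^ 4 * η j * γ' j * P j ^ 2) + 2 * A j - E j * Δ j ^ 2 / 2 -
        ϖ ^ 2 * F (j - 1) * Δ (j - 1) ^ 2 / 2) (ϖ ^ 2 * F (j - 1) * d (j - 1))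
    have s2 := norm_sub_le ((2 * ϖ * P j * γ j * μ j + 2 * ϖ * P j * Γ j +
        2 * ϖ ^ 4 * η j * γ' j * P j ^ 2) + 2 * A j - E j * Δ j ^ 2 / 2)
        (ϖ ^ 2 * F (j - 1) * Δ (j - 1) ^ 2 / 2)
    have s3 := norm_sub_le ((2 * ϖ * P j * γ j * μ j + 2 * ϖ * P j * Γ j +
        2 * ϖ ^ 4 * η j * γ' j * P j ^ 2) + 2 * A j) (E j * Δ j ^ 2 / 2)
    have s4 := norm_add_le (2 * ϖ * P j * γ j * μ j + 2 * ϖ * P j * Γ j +
        2 * ϖ ^ 4 * η j * γ' j * P j ^ 2) (2 * A j)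
    have := norm_nonneg d
    nlinarith
  exact (norm_le_pi_norm d j).trans hP

/-- **The main estimate.** -/
theorem d_add (j : ZMod k) : ‖d j + 32‖ ≤ 9 := by
  have h0 := norm_nonneg ϖ
  have h1 := L.bA hω j
  have h2 := L.bE hω j
  have h3 := L.EΔ hω j
  have h4 := L.Esq hω j
  have h5 := L.small8 hω j
  have h6 := L.Δ_le hω (j - 1)
  have h7 := L.d_le hω (j - 1)
  have h8 := L.hF (j - 1)
  have h9 := L.E_le hω j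
  -- first quotient
  have q1 : ‖A j - (-12) * E j‖ ≤ 256 * ‖ϖ‖ := by
    have hb := L.b_ge hω j
    refine div_bound (c := 0.97) (by norm_num) hb ?_
    have e : b j * (A j - -12 * E j) = (b j * A j + 12) + 12 * (b j * E j - 1) := by ring
    rw [e]
    refine (norm_add_le _ _).trans ?_
    rw [norm_mul, Complex.norm_ofNat]
    linarith
  -- second quotient
  have q2 : ‖E j * (E j * Δ j ^ 2) - 16 * E j ^ 2‖ ≤ 322 * ‖ϖ‖ := by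
    have e : E j * (E j * Δ j ^ 2) - 16 * E j ^ 2 = (E j * Δ j + 4) * (E j * Δ j + 4 - 8) -
        16 * (E j ^ 2 - 1) := by ring
    rw [e]
    refine (norm_sub_le _ _).trans ?_
    rw [norm_mul, norm_mul, Complex.norm_ofNat]
    have h10 : ‖E j * Δ j + 4 - 8‖ ≤ 30.6 * (1 / 100) + 8 := by
      refine (norm_sub_le _ _).trans ?_
      rw [Complex.norm_ofNat]
      nlinarith
    have h11 : ‖E j * Δ j + 4‖ * ‖E j * Δ j + 4 - 8‖ ≤ (30.6 * ‖ϖ‖) * (30.6 * (1 / 100) + 8) := by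
      gcongr
    nlinarith
  have q3 : ‖ϖ ^ 2 * F (j - 1) * d (j - 1) - ϖ ^ 2 * F (j - 1) * Δ (j - 1) ^ 2 / 2‖ ≤ ‖ϖ‖ := by
    have e : ϖ ^ 2 * F (j - 1) * d (j - 1) - ϖ ^ 2 * F (j - 1) * Δ (j - 1) ^ 2 / 2 =
        ϖ ^ 2 * F (j - 1) * (d (j - 1) - Δ (j - 1) ^ 2 / 2) := by ring
    rw [e, norm_mul, norm_mul, norm_pow]
    have h10 : ‖d (j - 1) - Δ (j - 1) ^ 2 / 2‖ ≤ 43 + 4.66 ^ 2 / 2 := by
      refine (norm_sub_le _ _).trans ?_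
      rw [norm_div, norm_pow, Complex.norm_ofNat]
      gcongr
    have h11 : ‖ϖ‖ ^ 2 * ‖F (j - 1)‖ * ‖d (j - 1) - Δ (j - 1) ^ 2 / 2‖ ≤
      ‖ϖ‖ ^ 2 * 1.042 * (43 + 4.66 ^ 2 / 2) := by gcongr
    nlinarith
  refine div_bound (c := 0.9216) (by norm_num) (L.Esq_ge hω j) ?_
  have e : E j ^ 2 * (d j + 32) = 2 * E j * (A j - (-12) * E j) -
      (E j * (E j * Δ j ^ 2) - 16 * E j ^ 2) / 2 +
      E j * (ϖ ^ 2 * F (j - 1) * d (j - 1) - ϖ ^ 2 * F (j - 1) * Δ (j - 1) ^ 2 / 2) +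
      E j * (2 * ϖ * P j * γ j * μ j + 2 * ϖ * P j * Γ j +
      2 * ϖ ^ 4 * η j * γ' j * P j ^ 2) := by
    linear_combination E j * L.e8 j
  rw [e]
  have s1 := norm_add₃_le (a := 2 * E j * (A j - (-12) * E j) -
      (E j * (E j * Δ j ^ 2) - 16 * E j ^ 2) / 2)
      (b := E j * (ϖ ^ 2 * F (j - 1) * d (j - 1) - ϖ ^ 2 * F (j - 1) * Δ (j - 1) ^ 2 / 2))
      (c := E j * (2 * ϖ * P j * γ j * μ j + 2 * ϖ * P j * Γ j +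
      2 * ϖ ^ 4 * η j * γ' j * P j ^ 2))
  have s2 := norm_sub_le (2 * E j * (A j - (-12) * E j))
      ((E j * (E j * Δ j ^ 2) - 16 * E j ^ 2) / 2)
  have t1 : ‖2 * E j * (A j - (-12) * E j)‖ ≤ 2 * 1.05 * (256 * ‖ϖ‖) := by
    rw [norm_mul, norm_mul, Complex.norm_ofNat]
    gcongr
  have t2 : ‖(E j * (E j * Δ j ^ 2) - 16 * E j ^ 2) / 2‖ ≤ 322 * ‖ϖ‖ / 2 := by
    rw [norm_div, Complex.norm_ofNat]
    gcongr
  have t3 : ‖E j * (ϖ ^ 2 * F (j - 1) * d (j - 1) - ϖ ^ 2 * F (j - 1) * Δ (j - 1) ^ 2 / 2)‖ ≤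
      1.05 * ‖ϖ‖ := by
    rw [norm_mul]
    gcongr
  have t4 : ‖E j * (2 * ϖ * P j * γ j * μ j + 2 * ϖ * P j * Γ j +
      2 * ϖ ^ 4 * η j * γ' j * P j ^ 2)‖ ≤ 1.05 * (35 * ‖ϖ‖) := by
    rw [norm_mul]
    gcongr
  linarith

/-- the sum of the second order quantities does not vanish -/
theorem sum_d_ne : ∑ j, d j ≠ 0 := by
  intro h
  have h1 : ∑ j, (d j).re = 0 := by
    have := congrArg Complex.re h
    rwa [Complex.re_sum, Complex.zero_re] at this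
  have h2 : ∑ j, (d j).re < 0 := by
    refine Finset.sum_neg (fun j _ => ?_) ⟨0, Finset.mem_univ _⟩
    have h3 := L.d_add hω j
    have h4 := (Complex.abs_re_le_norm (d j + 32)).trans h3
    rw [abs_le] at h4
    simp only [Complex.add_re, Complex.re_ofNat] at h4
    linarith [h4.2]
  linarith

end

end Loc

end

end Pool.Agent.MPf2967f.Fin
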