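import Mathlib
import Pool.Agent.Lib.MP_f2967f_an.Eig

set_option autoImplicit false

/-!
# Linear algebra on the cycle over the field of complex numbers
-/

namespace Pool.Agent.MPf2967f.Fin

/-- Eigenvectors of the linearised orbit in both directions. -/
structure Eigen (k : ℕ) [NeZero k] (z : ZMod k → ℂ) (τ : ℂˣ) (α β : ZMod k → ℂ) : Prop where
  hα : ∀ j, (τ : ℂ) * α (j + 1) + (τ : ℂ)⁻¹ * α (j - 1) = 2 * z j * α j
  hβ : ∀ j, (τ : ℂ)⁻¹ * β (j + 1) + (τ : ℂ) * β (j - 1) = 2 * z j * β j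

section

variable {k : ℕ} [NeZero k] {z : ZMod k → ℂ} {τ : ℂˣ} {α β : ZMod k → ℂ}

lemma Eigen.symm (h : Eigen k z τ α β) : Eigen k z τ⁻¹ β α := by
  refine ⟨fun j => ?_, fun j => ?_⟩
  · have := h.hβ j
    rw [Units.val_inv_eq_inv_val, inv_inv]
    exact this
  · have := h.hα j
    rw [Units.val_inv_eq_inv_val, inv_inv]
    exact this

/-- Existence of the eigenvectors. -/
theorem exists_eigen (k : ℕ) [NeZero k] (z : ZMod k → ℂ) :
    ∃ (τ : ℂˣ) (α β : ZMod k → ℂ), α ≠ 0 ∧ β ≠ 0 ∧ Eigen k z τ α β := by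
  obtain ⟨θ, hθ⟩ : ∃ θ : ℂ, ((Matrix.scalar (ZMod k ⊕ ZMod k)) θ -
      comp (fun j => 2 * z j) 1).det = 0 := by
    have hdeg : (comp (fun j => 2 * z j) (1 : ℂ)).charpoly.degree ≠ 0 := by
      rw [Matrix.charpoly_degree_eq_dim]
      have := NeZero.ne k
      simp [this]
    obtain ⟨θ, hθ⟩ := IsAlgClosed.exists_root _ hdeg
    refine ⟨θ, ?_⟩
    rw [← Matrix.eval_charpoly]
    exact hθ
  obtain ⟨w, hw, hw'⟩ := Matrix.exists_mulVec_eq_zero_iff.mpr hθ
  set u : ZMod k → ℂ := fun i => w (Sum.inl i) with hu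
  set v : ZMod k → ℂ := fun i => w (Sum.inr i) with hv
  have hwuv : w = Sum.elim u v := by
    ext i; rcases i with i | i <;> rfl
  rw [hwuv, Matrix.sub_mulVec, comp_mulVec] at hw'
  have e1 : ∀ i, θ * u i = 2 * z (i - 1) * u (i - 1) - v (i - 1) := by
    intro i
    have := congrFun hw' (Sum.inl i)
    simp at this
    linear_combination this
  have e2 : ∀ i, θ * v i = u (i - 1) := by
    intro i
    have := congrFun hw' (Sum.inr i)
    simp at this
    linear_combination this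
  have hθ0 : θ ≠ 0 := by
    rintro rfl
    apply hw
    have hu0 : ∀ i, u i = 0 := by
      intro i
      have := e2 (i + 1)
      rw [zero_mul, add_sub_cancel_right] at this
      exact this.symm
    have hv0 : ∀ i, v i = 0 := by
      intro i
      have := e1 (i + 1)
      rw [zero_mul, add_sub_cancel_right, hu0] at this
      linear_combination this
    rw [hwuv]
    ext i
    rcases i with i | i
    · simp [hu0]
    · simp [hv0]
  have hu0 : u ≠ 0 := by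
    intro h0
    apply hw
    rw [hwuv]
    ext i
    rcases i with i | i
    · simp [h0]
    · have := e2 i
      rw [h0] at this
      simp at this
      rcases this with h | h
      · exact absurd h hθ0
      · simpa using h
  have e3 : ∀ j, θ * u (j + 1) + θ⁻¹ * u (j - 1) = 2 * z j * u j := by
    intro j
    have h1 := e1 (j + 1)
    rw [add_sub_cancel_right] at h1
    have h2 := e2 j
    have h3 : θ⁻¹ * u (j - 1) = v j := by
      rw [← h2]; field_simp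
    linear_combination h1 + h3
  set N : Matrix (ZMod k) (ZMod k) ℂ := Matrix.of (fun i j =>
    (if j = i + 1 then θ else 0) + (if j = i - 1 then θ⁻¹ else 0)
      - (if j = i then 2 * z i else 0)) with hN
  have hNu : N.mulVec u = 0 := by
    ext i
    simp only [hN, Matrix.mulVec, dotProduct, Matrix.of_apply, sub_mul, add_mul, ite_mul, zero_mul,
      Finset.sum_sub_distrib, Finset.sum_add_distrib, Finset.sum_ite_eq',
      Finset.mem_univ, if_true, Pi.zero_apply]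
    have := e3 i
    linear_combination this
  have hNdet : N.det = 0 := Matrix.exists_mulVec_eq_zero_iff.mp ⟨u, hu0, hNu⟩
  obtain ⟨y, hy0, hy⟩ := Matrix.exists_vecMul_eq_zero_iff.mpr hNdet
  have e4 : ∀ j, θ⁻¹ * y (j + 1) + θ * y (j - 1) = 2 * z j * y j := by
    intro j
    have h1 := congrFun hy j
    have h2 : ∀ i : ZMod k, (j = i + 1) ↔ (i = j - 1) := fun i => by
      constructor
      · rintro rfl; ring
      · rintro rfl; ring
    have h3 : ∀ i : ZMod k, (j = i - 1) ↔ (i = j + 1) := fun i => by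
      constructor
      · rintro rfl; ring
      · rintro rfl; ring
    have h4 : ∀ i : ZMod k, (j = i) ↔ (i = j) := fun i => eq_comm
    simp only [hN, Matrix.vecMul, dotProduct, Matrix.of_apply, mul_sub, mul_add, mul_ite, mul_zero,
      Finset.sum_sub_distrib, Finset.sum_add_distrib, h2, h3, h4, Finset.sum_ite_eq',
      Finset.mem_univ, if_true, Pi.zero_apply] at h1
    linear_combination h1
  exact ⟨Units.mk0 θ hθ0, u, y, hu0, hy0, ⟨e3, e4⟩⟩

/-- the Wronskian is constant -/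
lemma Eigen.wr_step (h : Eigen k z τ α β) (j : ZMod k) :
    (τ : ℂ) * α (j + 1) * β j - (τ : ℂ)⁻¹ * α j * β (j + 1) =
      (τ : ℂ) * α j * β (j - 1) - (τ : ℂ)⁻¹ * α (j - 1) * β j := by
  linear_combination β j * h.hα j - α j * h.hβ j

lemma Eigen.wr_const (h : Eigen k z τ α β) (j : ZMod k) :
    (τ : ℂ) * α (j + 1) * β j - (τ : ℂ)⁻¹ * α j * β (j + 1) =
      (τ : ℂ) * α (0 + 1) * β 0 - (τ : ℂ)⁻¹ * α 0 * β (0 + 1) := by
  refine cycle_induction (P := fun j => (τ : ℂ) * α (j + 1) * β j - (τ : ℂ)⁻¹ * α j * β (j + 1) =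
      (τ : ℂ) * α (0 + 1) * β 0 - (τ : ℂ)⁻¹ * α 0 * β (0 + 1)) 0 rfl (fun j hj => ?_) j
  rw [h.wr_step (j + 1), add_sub_cancel_right]
  exact hj

/-- the growing solution -/
noncomputable def atS (τ : ℂˣ) (α : ZMod k → ℂ) (n : ℕ) : ℂ := (τ : ℂ) ^ n * α (n : ZMod k)

lemma atS_eqn (h : Eigen k z τ α β) (n : ℕ) :
    atS τ α (n + 2) = 2 * z ((n + 1 : ℕ) : ZMod k) * atS τ α (n + 1) - atS τ α n := by
  have h1 := h.hα ((n + 1 : ℕ) : ZMod k)
  have e1 : ((n + 1 : ℕ) : ZMod k) + 1 = ((n + 2 : ℕ) : ZMod k) := by push_cast; ring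
  have e2 : ((n + 1 : ℕ) : ZMod k) - 1 = ((n : ℕ) : ZMod k) := by push_cast; ring
  rw [e1, e2] at h1
  have ht : (τ : ℂ) ≠ 0 := τ.ne_zero
  simp only [atS]
  have e3 : (τ : ℂ) ^ n = (τ : ℂ) ^ (n + 1) * (τ : ℂ)⁻¹ := by
    rw [pow_succ]; field_simp
  rw [e3, pow_succ (τ : ℂ) (n + 1)]
  linear_combination (τ : ℂ) ^ (n + 1) * h1

lemma seq_decomp (h : Eigen k z τ α β) (v : ℕ → ℂ)
    (hv : ∀ n, v (n + 2) = 2 * z ((n + 1 : ℕ) : ZMod k) * v (n + 1) - v n) (n : ℕ) :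
    (atS τ α 1 * atS τ⁻¹ β 0 - atS τ α 0 * atS τ⁻¹ β 1) * v n =
      (v 1 * atS τ⁻¹ β 0 - v 0 * atS τ⁻¹ β 1) * atS τ α n +
      (atS τ α 1 * v 0 - atS τ α 0 * v 1) * atS τ⁻¹ β n := by
  have key : ∀ n, ((atS τ α 1 * atS τ⁻¹ β 0 - atS τ α 0 * atS τ⁻¹ β 1) * v n =
      (v 1 * atS τ⁻¹ β 0 - v 0 * atS τ⁻¹ β 1) * atS τ α n +
      (atS τ α 1 * v 0 - atS τ α 0 * v 1) * atS τ⁻¹ β n) ∧
      ((atS τ α 1 * atS τ⁻¹ β 0 - atS τ α 0 * atS τ⁻¹ β 1) * v (n + 1) =
      (v 1 * atS τ⁻¹ β 0 - v 0 * atS τ⁻¹ β 1) * atS τ α (n + 1) +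
      (atS τ α 1 * v 0 - atS τ α 0 * v 1) * atS τ⁻¹ β (n + 1)) := by
    intro n
    induction n with
    | zero => constructor <;> ring
    | succ n ih =>
      refine ⟨ih.2, ?_⟩
      rw [hv n, atS_eqn h n, atS_eqn h.symm n]
      linear_combination 2 * z ((n + 1 : ℕ) : ZMod k) * ih.2 - ih.1
  exact (key n).1

omit [NeZero k] in
lemma atS_period (τ : ℂˣ) (α : ZMod k → ℂ) (n : ℕ) : atS τ α (n + k) = (τ : ℂ) ^ k * atS τ α n := by
  simp only [atS]
  rw [pow_add]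
  have : ((n + k : ℕ) : ZMod k) = (n : ZMod k) := by push_cast; simp
  rw [this]
  ring

omit [NeZero k] in
lemma atS_ne (τ : ℂˣ) {α : ZMod k → ℂ} (hα : ∀ j, α j ≠ 0) (n : ℕ) : atS τ α n ≠ 0 :=
  mul_ne_zero (pow_ne_zero _ τ.ne_zero) (hα _)

/-- The Wronskian does not vanish. -/
lemma Eigen.wr_ne (h : Eigen k z τ α β) (hα : ∀ j, α j ≠ 0) (hβ : ∀ j, β j ≠ 0)
    (hτ : ∀ m : ℕ, m ≠ 0 → (τ : ℂ) ^ m ≠ 1) :
    atS τ α 1 * atS τ⁻¹ β 0 - atS τ α 0 * atS τ⁻¹ β 1 ≠ 0 := by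
  intro h0
  have hk : k ≠ 0 := NeZero.ne k
  -- proportionality
  have hdec := seq_decomp h (atS τ⁻¹ β) (atS_eqn h.symm)
  have hprop : ∀ n, atS τ⁻¹ β n * atS τ α 0 = atS τ⁻¹ β 0 * atS τ α n := by
    have key : ∀ n, (atS τ⁻¹ β n * atS τ α 0 = atS τ⁻¹ β 0 * atS τ α n) ∧
        (atS τ⁻¹ β (n + 1) * atS τ α 0 = atS τ⁻¹ β 0 * atS τ α (n + 1)) := by
      intro n
      induction n with
      | zero => exact ⟨by ring, by linear_combination -h0⟩
      | succ n ih =>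
        refine ⟨ih.2, ?_⟩
        rw [atS_eqn h n, atS_eqn h.symm n]
        linear_combination 2 * z ((n + 1 : ℕ) : ZMod k) * ih.2 - ih.1
    exact fun n => (key n).1
  have h1 := hprop (0 + k)
  rw [atS_period, atS_period, Units.val_inv_eq_inv_val, inv_pow] at h1
  have hb := atS_ne τ⁻¹ hβ 0
  have ha := atS_ne τ hα 0
  have ht : (τ : ℂ) ^ k ≠ 0 := pow_ne_zero _ τ.ne_zero
  have h2 : ((τ : ℂ) ^ k)⁻¹ = (τ : ℂ) ^ k := by
    have h3 : (((τ : ℂ) ^ k)⁻¹ - (τ : ℂ) ^ k) * (atS τ⁻¹ β 0 * atS τ α 0) = 0 := by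
      linear_combination h1
    rcases mul_eq_zero.mp h3 with h4 | h4
    · linear_combination h4
    · exact absurd h4 (mul_ne_zero hb ha)
  have h5 : (τ : ℂ) ^ (2 * k) = 1 := by
    rw [two_mul, pow_add]
    nth_rewrite 1 [← h2]
    exact inv_mul_cancel₀ ht
  exact hτ _ (by omega) h5

omit [NeZero k] in
/-- A periodic solution of the twisted equation gives a solution of the recursion. -/
lemma twist_seq (u : ZMod k → ℂ) (h : ℤ)
    (hu : ∀ j, (τ : ℂ) ^ h * u (j + 1) + (τ : ℂ) ^ (-h) * u (j - 1) = 2 * z j * u j) (n : ℕ) :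
    (((τ : ℂ) ^ h) ^ (n + 2) * u ((n + 2 : ℕ) : ZMod k)) =
      2 * z ((n + 1 : ℕ) : ZMod k) * (((τ : ℂ) ^ h) ^ (n + 1) * u ((n + 1 : ℕ) : ZMod k)) -
        (((τ : ℂ) ^ h) ^ n * u ((n : ℕ) : ZMod k)) := by
  have h1 := hu ((n + 1 : ℕ) : ZMod k)
  have e1 : ((n + 1 : ℕ) : ZMod k) + 1 = ((n + 2 : ℕ) : ZMod k) := by push_cast; ring
  have e2 : ((n + 1 : ℕ) : ZMod k) - 1 = ((n : ℕ) : ZMod k) := by push_cast; ring
  rw [e1, e2, zpow_neg] at h1
  have ht : (τ : ℂ) ^ h ≠ 0 := zpow_ne_zero _ τ.ne_zero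
  have e3 : ((τ : ℂ) ^ h) ^ n = ((τ : ℂ) ^ h) ^ (n + 1) * ((τ : ℂ) ^ h)⁻¹ := by
    rw [pow_succ]; field_simp
  rw [e3, pow_succ ((τ : ℂ) ^ h) (n + 1)]
  linear_combination ((τ : ℂ) ^ h) ^ (n + 1) * h1

/-- Injectivity of the twisted operator. -/
lemma twist_inj (hE : Eigen k z τ α β) (hα : ∀ j, α j ≠ 0) (hβ : ∀ j, β j ≠ 0)
    (hτ : ∀ m : ℕ, m ≠ 0 → (τ : ℂ) ^ m ≠ 1) (u : ZMod k → ℂ) (h : ℤ)
    (hu : ∀ j, (τ : ℂ) ^ h * u (j + 1) + (τ : ℂ) ^ (-h) * u (j - 1) = 2 * z j * u j) :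
    (h ≠ 1 → h ≠ -1 → u = 0) ∧ (h = 1 → ∃ A, ∀ j, u j = A * α j) := by
  set v : ℕ → ℂ := fun n => ((τ : ℂ) ^ h) ^ n * u (n : ZMod k) with hv
  have hvrec : ∀ n, v (n + 2) = 2 * z ((n + 1 : ℕ) : ZMod k) * v (n + 1) - v n :=
    fun n => twist_seq u h hu n
  have hdec := seq_decomp hE v hvrec
  have hW := hE.wr_ne hα hβ hτ
  set W := atS τ α 1 * atS τ⁻¹ β 0 - atS τ α 0 * atS τ⁻¹ β 1 with hWdef
  set A := v 1 * atS τ⁻¹ β 0 - v 0 * atS τ⁻¹ β 1 with hA
  set B := atS τ α 1 * v 0 - atS τ α 0 * v 1 with hB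
  have hvper : ∀ n, v (n + k) = ((τ : ℂ) ^ h) ^ k * v n := by
    intro n
    simp only [hv]
    rw [pow_add]
    have : ((n + k : ℕ) : ZMod k) = (n : ZMod k) := by push_cast; simp
    rw [this]
    ring
  have hτ0 : (τ : ℂ) ≠ 0 := τ.ne_zero
  have hk : k ≠ 0 := NeZero.ne k
  -- comparison of the decompositions at `n` and `n + k`
  have hcmp : ∀ n, A * (((τ : ℂ) ^ h) ^ k - (τ : ℂ) ^ k) * atS τ α n +
      B * (((τ : ℂ) ^ h) ^ k - ((τ : ℂ) ^ k)⁻¹) * atS τ⁻¹ β n = 0 := by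
    intro n
    have h1 := hdec (n + k)
    rw [hvper, atS_period, atS_period, Units.val_inv_eq_inv_val, inv_pow] at h1
    have h2 := hdec n
    linear_combination h1 - ((τ : ℂ) ^ h) ^ k * h2
  have hAz : A * (((τ : ℂ) ^ h) ^ k - (τ : ℂ) ^ k) = 0 := by
    have h0 := hcmp 0
    have h1 := hcmp 1
    have : (A * (((τ : ℂ) ^ h) ^ k - (τ : ℂ) ^ k)) * W = 0 := by
      rw [hWdef]
      linear_combination atS τ⁻¹ β 0 * h1 - atS τ⁻¹ β 1 * h0
    exact (mul_eq_zero.mp this).resolve_right hW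
  have hBz : B * (((τ : ℂ) ^ h) ^ k - ((τ : ℂ) ^ k)⁻¹) = 0 := by
    have h0 := hcmp 0
    have h1 := hcmp 1
    have : (B * (((τ : ℂ) ^ h) ^ k - ((τ : ℂ) ^ k)⁻¹)) * W = 0 := by
      rw [hWdef]
      linear_combination atS τ α 1 * h0 - atS τ α 0 * h1
    exact (mul_eq_zero.mp this).resolve_right hW
  have hzp : ∀ m : ℤ, m ≠ 0 → (τ : ℂ) ^ m ≠ 1 := by
    intro m hm h1
    obtain ⟨l, rfl | rfl⟩ := Int.eq_nat_or_neg m
    · exact hτ l (by rintro rfl; simp at hm) (by simpa using h1)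
    · rw [zpow_neg, inv_eq_one, zpow_natCast] at h1
      exact hτ l (by rintro rfl; simp at hm) h1
  have hp1 : h ≠ 1 → ((τ : ℂ) ^ h) ^ k - (τ : ℂ) ^ k ≠ 0 := by
    intro hh h1
    have h2 : ((τ : ℂ) ^ h) ^ k = (τ : ℂ) ^ k := sub_eq_zero.mp h1
    have h3 : (τ : ℂ) ^ ((h - 1) * k) = 1 := by
      rw [sub_mul, one_mul, zpow_sub₀ hτ0, zpow_mul, zpow_natCast, zpow_natCast, h2]
      exact div_self (pow_ne_zero _ hτ0)
    exact hzp _ (mul_ne_zero (sub_ne_zero.mpr hh) (by exact_mod_cast hk)) h3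
  have hp2 : h ≠ -1 → ((τ : ℂ) ^ h) ^ k - ((τ : ℂ) ^ k)⁻¹ ≠ 0 := by
    intro hh h1
    have h2 : ((τ : ℂ) ^ h) ^ k = ((τ : ℂ) ^ k)⁻¹ := sub_eq_zero.mp h1
    have h3 : (τ : ℂ) ^ ((h + 1) * k) = 1 := by
      rw [add_mul, one_mul, zpow_add₀ hτ0, zpow_mul, zpow_natCast, zpow_natCast, h2]
      exact inv_mul_cancel₀ (pow_ne_zero _ hτ0)
    exact hzp _ (mul_ne_zero (by intro h4; apply hh; linarith) (by exact_mod_cast hk)) h3
  constructor
  · intro h1 h2
    have hA0 : A = 0 := (mul_eq_zero.mp hAz).resolve_right (hp1 h1)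
    have hB0 : B = 0 := (mul_eq_zero.mp hBz).resolve_right (hp2 h2)
    have hv0 : ∀ n, v n = 0 := by
      intro n
      have := hdec n
      rw [hA0, hB0, zero_mul, zero_mul, add_zero] at this
      exact (mul_eq_zero.mp this).resolve_left hW
    ext j
    have h3 := hv0 j.val
    simp only [hv, ZMod.natCast_zmod_val] at h3
    exact (mul_eq_zero.mp h3).resolve_left (pow_ne_zero _ (zpow_ne_zero _ hτ0))
  · intro h1
    have hB0 : B = 0 := (mul_eq_zero.mp hBz).resolve_right (hp2 (by rw [h1]; decide))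
    refine ⟨A / W, fun j => ?_⟩
    have h2 := hdec j.val
    rw [hB0, zero_mul, add_zero] at h2
    simp only [hv, atS, ZMod.natCast_zmod_val, h1, zpow_one] at h2
    have h3 : (τ : ℂ) ^ j.val ≠ 0 := pow_ne_zero _ hτ0
    rw [div_mul_eq_mul_div, eq_div_iff hW]
    apply mul_left_cancel₀ h3
    linear_combination h2

/-- Solvability of the twisted equation with defects at the harmonics `±1`. -/
lemma harm_solve1 (hE : Eigen k z τ α β) (hα : ∀ j, α j ≠ 0) (hβ : ∀ j, β j ≠ 0)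
    (hτ : ∀ m : ℕ, m ≠ 0 → (τ : ℂ) ^ m ≠ 1) (h : ℤ) (hh : h ≠ -1) (f : ZMod k → ℂ) :
    ∃ u : ZMod k → ℂ, ∃ s : ℂ, (h ≠ 1 → s = 0) ∧
      ∀ j, f j + 2 * z j * u j = (τ : ℂ) ^ h * u (j + 1) + (τ : ℂ) ^ (-h) * u (j - 1) +
        (if j = 0 then s else 0) := by
  by_cases h1 : h = 1
  · subst h1
    set L : (ZMod k → ℂ) →ₗ[ℂ] (ZMod k → ℂ) := threeTerm
      (fun j => if j = 0 then 0 else (τ : ℂ)) (fun j => if j = 0 then 1 else -(2 * z j))
      (fun j => if j = 0 then 0 else (τ : ℂ)⁻¹) with hL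
    have hinj : Function.Injective L := by
      rw [injective_iff_map_eq_zero]
      intro u hu
      have hu' : ∀ j, j ≠ 0 → (τ : ℂ) * u (j + 1) - 2 * z j * u j + (τ : ℂ)⁻¹ * u (j - 1) = 0 := by
        intro j hj
        have := congrFun hu j
        simp only [hL, threeTerm, LinearMap.coe_mk, AddHom.coe_mk, if_neg hj, Pi.zero_apply] at this
        linear_combination this
      have hu0 : u 0 = 0 := by
        have := congrFun hu 0
        simpa [hL, threeTerm] using this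
      -- orthogonality
      have hsum : ∑ j, β j * ((τ : ℂ) * u (j + 1) - 2 * z j * u j + (τ : ℂ)⁻¹ * u (j - 1)) = 0 := by
        have e1 : ∑ j, β j * ((τ : ℂ) * u (j + 1)) = ∑ j, β (j - 1) * ((τ : ℂ) * u j) := by
          refine (Equiv.sum_comp (Equiv.subRight (1 : ZMod k)) _).symm.trans ?_
          refine Finset.sum_congr rfl (fun j _ => ?_)
          simp
        have e2 : ∑ j, β j * ((τ : ℂ)⁻¹ * u (j - 1)) = ∑ j, β (j + 1) * ((τ : ℂ)⁻¹ * u j) := by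
          refine (Equiv.sum_comp (Equiv.addRight (1 : ZMod k)) _).symm.trans ?_
          refine Finset.sum_congr rfl (fun j _ => ?_)
          simp
        simp only [mul_add, mul_sub, Finset.sum_add_distrib, Finset.sum_sub_distrib]
        rw [e1, e2, ← Finset.sum_sub_distrib, ← Finset.sum_add_distrib]
        refine Finset.sum_eq_zero (fun j _ => ?_)
        linear_combination u j * hE.hβ j
      rw [Finset.sum_eq_single (0 : ZMod k)] at hsum
      · have h2 := (mul_eq_zero.mp hsum).resolve_left (hβ 0)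
        have h3 : ∀ j, (τ : ℂ) ^ (1 : ℤ) * u (j + 1) + (τ : ℂ) ^ (-(1 : ℤ)) * u (j - 1) =
            2 * z j * u j := by
          intro j
          rw [zpow_neg, zpow_one]
          by_cases hj : j = 0
          · subst hj
            linear_combination h2
          · linear_combination hu' j hj
        obtain ⟨A, hA⟩ := (twist_inj hE hα hβ hτ u 1 h3).2 rfl
        have h4 : A = 0 := by
          have := hA 0
          rw [hu0] at this
          exact (mul_eq_zero.mp this.symm).resolve_right (hα 0)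
        ext j
        rw [hA j, h4, zero_mul]
        rfl
      · intro j _ hj
        rw [hu' j hj, mul_zero]
      · intro h; exact absurd (Finset.mem_univ _) h
    obtain ⟨u, hu⟩ := (LinearMap.injective_iff_surjective.mp hinj) (fun j => f j)
    refine ⟨u, f 0 + 2 * z 0 * u 0 - ((τ : ℂ) ^ (1 : ℤ) * u (0 + 1) +
      (τ : ℂ) ^ (-(1 : ℤ)) * u (0 - 1)), fun h => absurd rfl h, fun j => ?_⟩
    by_cases hj : j = 0
    · subst hj
      rw [if_pos rfl]; ring
    · rw [if_neg hj]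
      have := congrFun hu j
      simp only [hL, threeTerm, LinearMap.coe_mk, AddHom.coe_mk, if_neg hj] at this
      rw [zpow_neg, zpow_one]
      linear_combination -this
  · set L : (ZMod k → ℂ) →ₗ[ℂ] (ZMod k → ℂ) := threeTerm
      (fun _ => (τ : ℂ) ^ h) (fun j => -(2 * z j)) (fun _ => (τ : ℂ) ^ (-h)) with hL
    have hinj : Function.Injective L := by
      rw [injective_iff_map_eq_zero]
      intro u hu
      refine (twist_inj hE hα hβ hτ u h (fun j => ?_)).1 h1 hh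
      have := congrFun hu j
      simp only [hL, threeTerm, LinearMap.coe_mk, AddHom.coe_mk, Pi.zero_apply] at this
      linear_combination this
    obtain ⟨u, hu⟩ := (LinearMap.injective_iff_surjective.mp hinj) (fun j => f j)
    refine ⟨u, 0, fun _ => rfl, fun j => ?_⟩
    have := congrFun hu j
    simp only [hL, threeTerm, LinearMap.coe_mk, AddHom.coe_mk] at this
    rw [ite_self, add_zero]
    linear_combination -this

lemma harm_solve (hE : Eigen k z τ α β) (hα : ∀ j, α j ≠ 0) (hβ : ∀ j, β j ≠ 0)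
    (hτ : ∀ m : ℕ, m ≠ 0 → (τ : ℂ) ^ m ≠ 1) (h : ℤ) (f : ZMod k → ℂ) :
    ∃ u : ZMod k → ℂ, ∃ s : ℂ, (h ≠ 1 → h ≠ -1 → s = 0) ∧
      ∀ j, f j + 2 * z j * u j = (τ : ℂ) ^ h * u (j + 1) + (τ : ℂ) ^ (-h) * u (j - 1) +
        (if j = 0 then s else 0) := by
  by_cases h1 : h = -1
  · subst h1
    have hτ' : ∀ m : ℕ, m ≠ 0 → ((τ⁻¹ : ℂˣ) : ℂ) ^ m ≠ 1 := by
      intro m hm h1
      rw [Units.val_inv_eq_inv_val, inv_pow, inv_eq_one] at h1
      exact hτ m hm h1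
    obtain ⟨u, s, -, hu⟩ := harm_solve1 hE.symm hβ hα hτ' 1 (by decide) f
    refine ⟨u, s, fun _ h => absurd rfl h, fun j => ?_⟩
    rw [hu j, Units.val_inv_eq_inv_val]
    simp
  · obtain ⟨u, s, hs, hu⟩ := harm_solve1 hE hα hβ hτ h h1 f
    exact ⟨u, s, fun h2 _ => hs h2, hu⟩

end

end Pool.Agent.MPf2967f.Fin
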