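import Mathlib
import Pool.Agent.Lib.MP_f2967f_an.Fin.Lin
import Pool.Agent.Lib.MP_f2967f_an.Series

set_option autoImplicit false

/-!
# Existence of the formal series (with defects) over the complex numbers
-/

namespace Pool.Agent.MPf2967f.Fin

open LaurentPolynomial

section laurent

variable {k : ℕ} [NeZero k] {z : ZMod k → ℂ} {τ : ℂˣ} {α β : ZMod k → ℂ}

/-- The equation satisfied by one homogeneous part. -/
def EqnC (z : ZMod k → ℂ) (τ : ℂ) (f u : ZMod k → ℂ[T;T⁻¹]) (sp sm : ℂ) : Prop :=
  ∀ (j : ZMod k) (h : ℤ), (f j).coeff h + 2 * z j * (u j).coeff h =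
    (τ ^ h * (u (j + 1)).coeff h + τ ^ (-h) * (u (j - 1)).coeff h) +
      (if j = 0 then ((if h = 1 then sp else 0) + (if h = -1 then sm else 0)) else 0)

lemma laurent_solve (hE : Eigen k z τ α β) (hα : ∀ j, α j ≠ 0) (hβ : ∀ j, β j ≠ 0)
    (hτ : ∀ m : ℕ, m ≠ 0 → (τ : ℂ) ^ m ≠ 1)
    (f : ZMod k → ℂ[T;T⁻¹]) : ∃ u : ZMod k → ℂ[T;T⁻¹], ∃ sp sm : ℂ, EqnC z τ f u sp sm ∧
      ∀ h, (∀ i, (f i).coeff h = 0) → ∀ j, (u j).coeff h = 0 := by
  classical
  choose U S hS hU using fun (h : ℤ) =>
    harm_solve hE hα hβ hτ h (fun j => (f j).coeff h)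
  set s : Finset ℤ := Finset.univ.biUnion (fun j => (f j).coeff.support) with hs
  refine ⟨fun j => .ofCoeff (Finsupp.onFinset s (fun h => if h ∈ s then U h j else 0)
    (fun h hh => by by_contra hn; simp [hn] at hh)), if 1 ∈ s then S 1 else 0,
    if -1 ∈ s then S (-1) else 0, ?_, ?_⟩
  · intro j h
    simp only [Finsupp.onFinset_apply]
    by_cases hh : h ∈ s
    · simp only [if_pos hh]
      rw [hU h j]
      congr 1
      by_cases hj : j = 0
      · simp only [if_pos hj]
        by_cases h1 : h = 1
        · subst h1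
          simp [hh]
        · by_cases h2 : h = -1
          · subst h2
            simp [hh]
          · rw [hS h h1 h2]
            simp [h1, h2]
      · simp [hj]
    · simp only [if_neg hh]
      have hf : (f j).coeff h = 0 := by
        by_contra hne
        apply hh
        rw [hs, Finset.mem_biUnion]
        exact ⟨j, Finset.mem_univ _, Finsupp.mem_support_iff.mpr hne⟩
      rw [hf]
      by_cases h1 : h = 1
      · subst h1
        simp [hh]
      · by_cases h2 : h = -1
        · subst h2
          simp [hh]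
        · simp [h1, h2]
  · intro h hf j
    simp only [Finsupp.onFinset_apply]
    rw [if_neg]
    rw [hs, Finset.mem_biUnion]
    rintro ⟨i, _, hi⟩
    exact Finsupp.mem_support_iff.mp hi (hf i)

/-- the possible harmonics in degree `n` -/
def Allowed (n : ℕ) (h : ℤ) : Prop := ∃ a b : ℕ, a + b = n ∧ h = a - b

lemma coeff_mul_ne {p q : ℂ[T;T⁻¹]} {h : ℤ} (hne : (p * q).coeff h ≠ 0) :
    ∃ a b, a + b = h ∧ p.coeff a ≠ 0 ∧ q.coeff b ≠ 0 := by
  classical
  rw [AddMonoidAlgebra.mul_def] at hne
  by_contra hcon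
  push Not at hcon
  apply hne
  rw [Finsupp.sum, AddMonoidAlgebra.coeff_sum, Finset.sum_apply']
  refine Finset.sum_eq_zero (fun a ha => ?_)
  rw [Finsupp.sum, AddMonoidAlgebra.coeff_sum, Finset.sum_apply']
  refine Finset.sum_eq_zero (fun b hb => ?_)
  rw [AddMonoidAlgebra.coeff_single, Finsupp.single_apply]
  split_ifs with hab
  · exact absurd (hcon a b hab (Finsupp.mem_support_iff.mp ha)) (Finsupp.mem_support_iff.mp hb)
  · rfl

omit [NeZero k] in
lemma allowed_sum {n : ℕ} {w : ℕ → ZMod k → ℂ[T;T⁻¹]}
    (hw : ∀ m ≤ n, ∀ j h, (w m j).coeff h ≠ 0 → Allowed m h) (j : ZMod k) (h : ℤ)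
    (hne : (∑ p ∈ Finset.HasAntidiagonal.antidiagonal n, w p.1 j * w p.2 j).coeff h ≠ 0) :
    Allowed n h := by
  rw [AddMonoidAlgebra.coeff_sum, Finset.sum_apply'] at hne
  obtain ⟨p, hp, hp'⟩ := Finset.exists_ne_zero_of_sum_ne_zero hne
  rw [Finset.HasAntidiagonal.mem_antidiagonal] at hp
  obtain ⟨a, b, hab, ha, hb⟩ := coeff_mul_ne hp'
  obtain ⟨a1, b1, h1, h1'⟩ := hw p.1 (by omega) j a ha
  obtain ⟨a2, b2, h2, h2'⟩ := hw p.2 (by omega) j b hb
  refine ⟨a1 + a2, b1 + b2, by omega, ?_⟩
  push_cast
  rw [← hab, h1', h2']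
  ring

lemma cC (x y : ℂ) (h : ℤ) : (C x * T 1 + C y * T (-1) : ℂ[T;T⁻¹]).coeff h =
    (if h = 1 then x else 0) + (if h = -1 then y else 0) := by
  rw [← single_eq_C_mul_T, ← single_eq_C_mul_T]
  simp only [AddMonoidAlgebra.coeff_add, AddMonoidAlgebra.coeff_single,
    Finsupp.add_apply, Finsupp.single_apply]
  congr 1
  · by_cases h1 : h = 1
    · simp [h1]
    · simp [h1, Ne.symm h1]
  · by_cases h1 : h = -1
    · simp [h1]
    · simp [h1, Ne.symm h1]

open Finset in
theorem exists_series (hE : Eigen k z τ α β) (hα : ∀ j, α j ≠ 0) (hβ : ∀ j, β j ≠ 0)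
    (hτ : ∀ m : ℕ, m ≠ 0 → (τ : ℂ) ^ m ≠ 1) :
    ∃ (w : ℕ → ZMod k → ℂ[T;T⁻¹]) (sp sm : ℕ → ℂ), (∀ j, w 0 j = 0) ∧
      (∀ j, w 1 j = C (α j) * T 1 + C (β j) * T (-1)) ∧ sp 0 = 0 ∧ sm 0 = 0 ∧
      (∀ n, EqnC z τ (fun j => ∑ p ∈ antidiagonal n, w p.1 j * w p.2 j) (w n) (sp n) (sm n)) ∧
      ∀ n j h, (w n j).coeff h ≠ 0 → Allowed n h := by
  classical
  set w₁ : ZMod k → ℂ[T;T⁻¹] := fun j => C (α j) * T 1 + C (β j) * T (-1) with hw₁
  have hex : ∃ a : ℕ → (ZMod k → ℂ[T;T⁻¹]) × ℂ × ℂ, ∀ n,
      (n = 0 → a 0 = (0, 0, 0)) ∧ (n = 1 → a 1 = (w₁, 0, 0)) ∧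
      (2 ≤ n → EqnC z τ (fun j => ∑ p ∈ antidiagonal n, (a p.1).1 j * (a p.2).1 j) (a n).1
        (a n).2.1 (a n).2.2) ∧ (∀ j h, ((a n).1 j).coeff h ≠ 0 → Allowed n h) := by
    refine exists_seq (0, 0, 0) (fun n a => (n = 0 → a 0 = (0, 0, 0)) ∧ (n = 1 → a 1 = (w₁, 0, 0)) ∧
      (2 ≤ n → EqnC z τ (fun j => ∑ p ∈ antidiagonal n, (a p.1).1 j * (a p.2).1 j) (a n).1
        (a n).2.1 (a n).2.2) ∧ (∀ j h, ((a n).1 j).coeff h ≠ 0 → Allowed n h)) ?_ ?_
    · rintro n w w' hww' ⟨h0, h1, h2, h3⟩
      refine ⟨fun h => ?_, fun h => ?_, fun h => ?_, ?_⟩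
      · rw [← hww' 0 (by omega)]; exact h0 h
      · rw [← hww' 1 (by omega)]; exact h1 h
      · have := h2 h
        rw [← hww' n le_rfl]
        have e : (fun j => ∑ p ∈ antidiagonal n, (w' p.1).1 j * (w' p.2).1 j) =
            (fun j => ∑ p ∈ antidiagonal n, (w p.1).1 j * (w p.2).1 j) := by
          funext j
          refine sum_congr rfl (fun p hp => ?_)
          rw [HasAntidiagonal.mem_antidiagonal] at hp
          rw [hww' p.1 (by omega), hww' p.2 (by omega)]
        rw [e]
        exact this
      · rw [← hww' n le_rfl]; exact h3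
    · intro n a ha
      rcases n with _ | n
      · exact ⟨(0, 0, 0), fun _ => by simp, fun h => by omega, fun h => by omega, by simp⟩
      · rcases n with _ | n
        · refine ⟨(w₁, 0, 0), fun h => by omega, fun _ => by simp, fun h => by omega, ?_⟩
          intro j h hh
          simp only [zero_add, Function.update_self, hw₁, cC] at hh
          by_cases h1 : h = 1
          · exact ⟨1, 0, rfl, by simp [h1]⟩
          · by_cases h2 : h = -1
            · exact ⟨0, 1, rfl, by simp [h2]⟩
            · simp [h1, h2] at hh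
        · obtain ⟨u, sp, sm, hu, hu'⟩ := laurent_solve hE hα hβ hτ
            (fun j => ∑ p ∈ antidiagonal (n + 1 + 1), (Function.update a (n + 1 + 1) 0 p.1).1 j *
              (Function.update a (n + 1 + 1) 0 p.2).1 j)
          refine ⟨(u, sp, sm), fun h => by omega, fun h => by omega, fun _ => ?_, ?_⟩
          · have e : (fun j => ∑ p ∈ antidiagonal (n + 1 + 1),
                (Function.update a (n + 1 + 1) (u, sp, sm) p.1).1 j *
                (Function.update a (n + 1 + 1) (u, sp, sm) p.2).1 j) =
                (fun j => ∑ p ∈ antidiagonal (n + 1 + 1), (Function.update a (n + 1 + 1) 0 p.1).1 j *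
                (Function.update a (n + 1 + 1) 0 p.2).1 j) := by
              funext j
              refine sum_congr rfl (fun p hp => ?_)
              rw [HasAntidiagonal.mem_antidiagonal] at hp
              have ha0 : a 0 = (0, 0, 0) := (ha 0 (by omega)).1 rfl
              have key : ∀ x, Function.update a (n + 1 + 1) x 0 = (0, 0, 0) := fun x => by
                rw [Function.update_of_ne (by omega), ha0]
              by_cases h1 : p.1 = n + 1 + 1
              · have h2 : p.2 = 0 := by omega
                rw [h2, key, key]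
                simp
              · by_cases h2 : p.2 = n + 1 + 1
                · have h3 : p.1 = 0 := by omega
                  rw [h3, key, key]
                  simp
                · rw [Function.update_of_ne h1, Function.update_of_ne h1, Function.update_of_ne h2,
                    Function.update_of_ne h2]
            rw [e]
            simpa using hu
          · intro j h hh
            rw [Function.update_self] at hh
            simp only at hh
            by_contra hcon
            refine hh (hu' h (fun i => ?_) j)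
            by_contra hne
            refine hcon (allowed_sum
              (w := fun m j => (Function.update a (n + 1 + 1) 0 m).1 j) ?_ i h hne)
            intro m hm j' h' hh'
            by_cases hmn : m = n + 1 + 1
            · subst hmn
              rw [Function.update_self] at hh'
              simp at hh'
            · rw [Function.update_of_ne hmn] at hh'
              exact (ha m (by omega)).2.2.2 j' h' hh'
  obtain ⟨a, ha⟩ := hex
  refine ⟨fun n => (a n).1, fun n => (a n).2.1, fun n => (a n).2.2, ?_, ?_, ?_, ?_, ?_,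
    fun n => (ha n).2.2.2⟩
  · intro j; simp only; rw [(ha 0).1 rfl]; rfl
  · intro j; simp only; rw [(ha 1).2.1 rfl]
  · simp only; rw [(ha 0).1 rfl]
  · simp only; rw [(ha 0).1 rfl]
  · intro n
    rcases n with _ | n
    · intro j h
      simp only
      rw [Finset.Nat.antidiagonal_zero, sum_singleton]
      simp only
      rw [(ha 0).1 rfl]
      simp
    · rcases n with _ | n
      · intro j h
        have e0 := (ha 0).1 rfl
        have e1 := (ha 1).2.1 rfl
        have hanti : antidiagonal 1 = {((0 : ℕ), (1 : ℕ)), (1, 0)} := by decide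
        simp only [zero_add]
        rw [hanti, sum_pair (by decide)]
        simp only
        rw [e0, e1]
        have ea := hE.hα j
        have eb := hE.hβ j
        simp only [hw₁, cC]
        by_cases h1 : h = 1
        · subst h1
          simp
          linear_combination -ea
        · by_cases h2 : h = -1
          · subst h2
            simp
            linear_combination -eb
          · simp [h1, h2]
      · exact (ha (n + 1 + 1)).2.2.1 (by omega)

end laurent

end Pool.Agent.MPf2967f.Fin
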