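import Mathlib
import Pool.Agent.Lib.MP_f2967f_an.Fin.Series
import Pool.Agent.Lib.MP_f2967f_an.Defect

set_option autoImplicit false

/-!
# The defects vanish (over the complex numbers)
-/

namespace Pool.Agent.MPf2967f.Fin

open LaurentPolynomial Filter Topology

section ev

/-- evaluation of a Laurent polynomial at a nonzero complex number -/
noncomputable def evC (t : ℂˣ) : ℂ[T;T⁻¹] →+* ℂ := LaurentPolynomial.eval₂ (RingHom.id ℂ) t

lemma evC_eq_sum' (t : ℂˣ) (f : ℂ[T;T⁻¹]) :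
    evC t f = f.coeff.sum (fun h a => a * (t : ℂ) ^ h) := by
  induction f using LaurentPolynomial.induction_on' with
  | add p q hp hq =>
    rw [map_add, hp, hq, AddMonoidAlgebra.coeff_add, Finsupp.sum_add_index']
    · intro h; simp
    · intro h a b; ring
  | C_mul_T n a =>
    rw [← single_eq_C_mul_T, AddMonoidAlgebra.coeff_single, Finsupp.sum_single_index (by simp),
      single_eq_C_mul_T, evC, eval₂_C_mul_T]
    rw [Units.val_zpow_eq_zpow_val]
    rfl

lemma evC_eq_sum (t : ℂˣ) (f : ℂ[T;T⁻¹]) (s : Finset ℤ) (hs : f.coeff.support ⊆ s) :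
    evC t f = ∑ h ∈ s, (f.coeff h) * (t : ℂ) ^ h := by
  rw [evC_eq_sum', Finsupp.sum_of_support_subset _ hs]
  intro h _
  simp

lemma EqnC.eval {k : ℕ} {z : ZMod k → ℂ} {τu : ℂˣ} {f u : ZMod k → ℂ[T;T⁻¹]} {sp sm : ℂ}
    (H : EqnC z τu f u sp sm) (t : ℂˣ) (j : ZMod k) :
    evC t (f j) + 2 * z j * evC t (u j) = (evC (τu * t) (u (j + 1)) + evC (τu⁻¹ * t) (u (j - 1))) +
      (if j = 0 then sp * t + sm * (t : ℂ)⁻¹ else 0) := by
  classical
  set s : Finset ℤ := (f j).coeff.support ∪ (u j).coeff.support ∪ (u (j + 1)).coeff.support ∪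
    (u (j - 1)).coeff.support ∪ {1, -1} with hs
  rw [evC_eq_sum t (f j) s (by intro x hx; simp only [hs, Finset.mem_union]; tauto),
    evC_eq_sum t (u j) s (by intro x hx; simp only [hs, Finset.mem_union]; tauto),
    evC_eq_sum (τu * t) (u (j + 1)) s (by intro x hx; simp only [hs, Finset.mem_union]; tauto),
    evC_eq_sum (τu⁻¹ * t) (u (j - 1)) s (by intro x hx; simp only [hs, Finset.mem_union]; tauto)]
  have hone : (1 : ℤ) ∈ s := by simp [hs]
  have hneg : (-1 : ℤ) ∈ s := by simp [hs]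
  have h1 : (if j = 0 then sp * t + sm * (t : ℂ)⁻¹ else 0) =
      ∑ h ∈ s, (if j = 0 then ((if h = 1 then sp else 0) +
        (if h = -1 then sm else 0)) else 0) * (t : ℂ) ^ h := by
    by_cases hj : j = 0
    · simp only [if_pos hj, add_mul, ite_mul, zero_mul, Finset.sum_add_distrib,
        Finset.sum_ite_eq', if_pos hone, if_pos hneg]
      simp
    · simp [hj]
  rw [h1, Finset.mul_sum, ← Finset.sum_add_distrib, ← Finset.sum_add_distrib,
    ← Finset.sum_add_distrib]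
  refine Finset.sum_congr rfl (fun h _ => ?_)
  have := H j h
  rw [Units.val_mul, Units.val_mul, mul_zpow, mul_zpow]
  have e : ((τu⁻¹ : ℂˣ) : ℂ) ^ h = (τu : ℂ) ^ (-h) := by
    rw [Units.val_inv_eq_inv_val, inv_zpow, zpow_neg]
  rw [e]
  linear_combination (t : ℂ) ^ h * this

lemma evC_tendsto (f : ℂ[T;T⁻¹]) (t : ℕ → ℂˣ) (t₀ : ℂˣ)
    (h : Tendsto (fun i => (t i : ℂ)) atTop (𝓝 (t₀ : ℂ))) :
    Tendsto (fun i => evC (t i) f) atTop (𝓝 (evC t₀ f)) := by
  simp only [evC_eq_sum _ f _ subset_rfl]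
  refine tendsto_finsetSum _ (fun n _ => ?_)
  exact (h.zpow₀ n (Or.inl t₀.ne_zero)).const_mul _

end ev

/-- All the formal data attached to a periodic orbit whose multiplier is not a root of unity. -/
structure FSetup (k : ℕ) [NeZero k] (c : ℂ) (z : ZMod k → ℂ) where
  hz : ∀ j, z (j + 1) + z (j - 1) = z j ^ 2 + c
  τ : ℂˣ
  α : ZMod k → ℂ
  β : ZMod k → ℂ
  hEig : Eigen k z τ α β
  hα : ∀ j, α j ≠ 0
  hβ : ∀ j, β j ≠ 0
  hτ : ∀ m : ℕ, m ≠ 0 → (τ : ℂ) ^ m ≠ 1
  w : ℕ → ZMod k → ℂ[T;T⁻¹]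
  sp : ℕ → ℂ
  sm : ℕ → ℂ
  hw0 : ∀ j, w 0 j = 0
  hw1 : ∀ j, w 1 j = C (α j) * T 1 + C (β j) * T (-1)
  hsp0 : sp 0 = 0
  hsm0 : sm 0 = 0
  hE : ∀ n, EqnC z τ (fun j => ∑ p ∈ Finset.HasAntidiagonal.antidiagonal n, w p.1 j * w p.2 j) (w n)
    (sp n) (sm n)
  hsupp : ∀ n j h, (w n j).coeff h ≠ 0 → Allowed n h

theorem exists_fsetup (k : ℕ) [NeZero k] (c : ℂ) (z : ZMod k → ℂ)
    (hz : ∀ j, z (j + 1) + z (j - 1) = z j ^ 2 + c) (τ : ℂˣ) (α β : ZMod k → ℂ)
    (hE : Eigen k z τ α β) (hα : ∀ j, α j ≠ 0) (hβ : ∀ j, β j ≠ 0)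
    (hτ : ∀ m : ℕ, m ≠ 0 → (τ : ℂ) ^ m ≠ 1) :
    ∃ S : FSetup k c z, S.τ = τ ∧ S.α = α ∧ S.β = β := by
  obtain ⟨w, sp, sm, h0, h1, h2, h3, h4, h5⟩ := exists_series hE hα hβ hτ
  exact ⟨⟨hz, τ, α, β, hE, hα, hβ, hτ, w, sp, sm, h0, h1, h2, h3, h4, h5⟩, rfl, rfl, rfl⟩

namespace FSetup

variable {k : ℕ} [NeZero k] {c : ℂ} {z : ZMod k → ℂ} (S : FSetup k c z)

/-- degree-`m` coefficient of the formal orbit at time `i` -/
noncomputable def x (m i : ℕ) : ℂ := evC (S.τ ^ i) (S.w m (i : ZMod k))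

/-- degree-`m` defect at time `i` -/
noncomputable def δ (m i : ℕ) : ℂ :=
  if ((i : ZMod k) = 0) then (S.sp m * (S.τ : ℂ) ^ i + S.sm m * ((S.τ : ℂ) ^ i)⁻¹) else 0

lemma x_zero (i : ℕ) : S.x 0 i = 0 := by
  simp [x, S.hw0]

lemma x_eqn (m i : ℕ) : S.x m (i + 2) + S.x m i =
    2 * z ((i + 1 : ℕ) : ZMod k) * S.x m (i + 1) +
      ∑ p ∈ Finset.HasAntidiagonal.antidiagonal m, S.x p.1 (i + 1) * S.x p.2 (i + 1) - S.δ m (i + 1) := by
  have h := (S.hE m).eval (S.τ ^ (i + 1)) ((i + 1 : ℕ) : ZMod k)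
  rw [map_sum] at h
  have e1 : ((i + 1 : ℕ) : ZMod k) + 1 = ((i + 2 : ℕ) : ZMod k) := by push_cast; ring
  have e2 : ((i + 1 : ℕ) : ZMod k) - 1 = ((i : ℕ) : ZMod k) := by push_cast; ring
  have e3 : S.τ * S.τ ^ (i + 1) = S.τ ^ (i + 2) := by rw [← pow_succ']
  have e4 : S.τ⁻¹ * S.τ ^ (i + 1) = S.τ ^ i := by rw [pow_succ']; simp
  rw [e1, e2, e3, e4] at h
  have e5 : ∑ p ∈ Finset.HasAntidiagonal.antidiagonal m, S.x p.1 (i + 1) * S.x p.2 (i + 1) =
      ∑ p ∈ Finset.HasAntidiagonal.antidiagonal m,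
        evC (S.τ ^ (i + 1)) (S.w p.1 ((i + 1 : ℕ) : ZMod k) * S.w p.2 ((i + 1 : ℕ) : ZMod k)) := by
    refine Finset.sum_congr rfl (fun p _ => ?_)
    rw [map_mul]
    simp only [x]
  rw [e5]
  simp only [x, δ]
  rw [Units.val_pow_eq_pow_val] at h
  linear_combination -h

/-- the formal orbit as a power series -/
noncomputable def A (i : ℕ) : PowerSeries ℂ :=
  PowerSeries.C (z (i : ZMod k)) + PowerSeries.mk (fun m => S.x m i)

lemma A_eqn (i : ℕ) : S.A (i + 2) = S.A (i + 1) ^ 2 + PowerSeries.C c - S.A i -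
    PowerSeries.mk (fun m => S.δ m (i + 1)) := by
  ext m
  have h := S.x_eqn m i
  have hz := S.hz ((i + 1 : ℕ) : ZMod k)
  have e1 : ((i + 1 : ℕ) : ZMod k) + 1 = ((i + 2 : ℕ) : ZMod k) := by push_cast; ring
  have e2 : ((i + 1 : ℕ) : ZMod k) - 1 = ((i : ℕ) : ZMod k) := by push_cast; ring
  rw [e1, e2] at hz
  have hsq : S.A (i + 1) ^ 2 = PowerSeries.C (z ((i + 1 : ℕ) : ZMod k) ^ 2) +
      PowerSeries.C (2 * z ((i + 1 : ℕ) : ZMod k)) * PowerSeries.mk (fun m => S.x m (i + 1)) +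
      PowerSeries.mk (fun m => S.x m (i + 1)) * PowerSeries.mk (fun m => S.x m (i + 1)) := by
    simp only [A, map_mul, map_pow, map_ofNat]
    ring
  rw [hsq]
  simp only [A, map_add, map_sub, PowerSeries.coeff_mk, PowerSeries.coeff_C_mul,
    PowerSeries.coeff_C]
  rw [PowerSeries.coeff_mul]
  simp only [PowerSeries.coeff_mk]
  by_cases hm : m = 0
  · simp only [if_pos hm]
    linear_combination h + hz
  · simp only [if_neg hm]
    linear_combination h

lemma constantCoeff_A (i : ℕ) : PowerSeries.constantCoeff (S.A i) = z (i : ZMod k) := by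
  rw [A, map_add, PowerSeries.constantCoeff_C, ← PowerSeries.coeff_zero_eq_constantCoeff_apply,
    PowerSeries.coeff_mk, x_zero, add_zero]

lemma coeff_A {m : ℕ} (hm : m ≠ 0) (i : ℕ) : PowerSeries.coeff m (S.A i) = S.x m i := by
  simp [A, PowerSeries.coeff_C, hm]

/-- the `β`-solution -/
noncomputable def bt (i : ℕ) : ℂ := ((S.τ : ℂ) ^ i)⁻¹ * S.β (i : ZMod k)

lemma bt_eq (i : ℕ) : S.bt i = atS S.τ⁻¹ S.β i := by
  simp [bt, atS]

lemma bt_eqn (i : ℕ) : S.bt (i + 2) = 2 * z ((i + 1 : ℕ) : ZMod k) * S.bt (i + 1) - S.bt i := by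
  simp only [bt_eq]
  exact atS_eqn S.hEig.symm i

lemma at_eqn (i : ℕ) : atS S.τ S.α (i + 2) =
    2 * z ((i + 1 : ℕ) : ZMod k) * atS S.τ S.α (i + 1) - atS S.τ S.α i :=
  atS_eqn S.hEig i

omit [NeZero k] in
lemma natCast_mul_self' (m : ℕ) : ((k * m : ℕ) : ZMod k) = 0 := by simp

variable {N : ℕ → ℕ}

include S in
lemma z_nat (i : ℕ) : z ((i + 2 : ℕ) : ZMod k) = z ((i + 1 : ℕ) : ZMod k) ^ 2 + c - z (i : ZMod k) := by
  have hz := S.hz ((i + 1 : ℕ) : ZMod k)
  have e1 : ((i + 1 : ℕ) : ZMod k) + 1 = ((i + 2 : ℕ) : ZMod k) := by push_cast; ring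
  have e2 : ((i + 1 : ℕ) : ZMod k) - 1 = ((i : ℕ) : ZMod k) := by push_cast; ring
  rw [e1, e2] at hz
  linear_combination hz

lemma tau_tendsto (hAI : AI c k z N) :
    Tendsto (fun i => (S.τ : ℂ) ^ (k * N i)) atTop (𝓝 1) := by
  obtain ⟨Q, hQ0, hQ1, hQ⟩ := exists_orbit c
    (Polynomial.C (z 0) + Polynomial.C (atS S.τ S.α 0) * Polynomial.X)
    (Polynomial.C (z 1) + Polynomial.C (atS S.τ S.α 1) * Polynomial.X)
  have key : ∀ i, ((Q i).coeff 0 = z (i : ZMod k) ∧ (Q i).coeff 1 = atS S.τ S.α i) ∧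
      ((Q (i + 1)).coeff 0 = z ((i + 1 : ℕ) : ZMod k) ∧
        (Q (i + 1)).coeff 1 = atS S.τ S.α (i + 1)) := by
    intro i
    induction i with
    | zero => simp [hQ0, hQ1]
    | succ i ih =>
      refine ⟨ih.2, ?_, ?_⟩
      · rw [hQ i, S.z_nat i, Polynomial.coeff_sub, Polynomial.coeff_add, pow_two,
          Polynomial.mul_coeff_zero, Polynomial.coeff_C_zero, ih.2.1, ih.1.1]
        ring
      · rw [hQ i, S.at_eqn i, Polynomial.coeff_sub, Polynomial.coeff_add, pow_two,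
          Polynomial.mul_coeff_one, Polynomial.coeff_C, ih.2.1, ih.2.2, ih.1.2]
        simp
        ring
  have h1 := (hAI Q (by simpa using (key 0).1.1) (by simpa using (key 0).2.1) hQ 1).1
  have h2 : ∀ i, (Q (k * N i)).coeff 1 = (S.τ : ℂ) ^ (k * N i) * S.α 0 := by
    intro i
    rw [(key _).1.2, atS, natCast_mul_self']
  have h3 : (Q 0).coeff 1 = S.α 0 := by
    rw [(key 0).1.2, atS]; simp
  simp only [h2, h3] at h1
  have hα0 : S.α 0 ≠ 0 := S.hα 0
  have h4 := h1.div_const (S.α 0 : ℂ)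
  simpa [hα0] using h4

theorem defect_zero (hN : Tendsto N atTop atTop) (hAI : AI c k z N) :
    ∀ n, S.sp n = 0 ∧ S.sm n = 0 := by
  intro n
  induction n using Nat.strong_induction_on with
  | _ n ih =>
  rcases eq_or_ne n 0 with hn | hn
  · subst hn; exact ⟨S.hsp0, S.hsm0⟩
  -- the true orbit
  obtain ⟨Q, hQ0, hQ1, hQ⟩ := exists_orbit c (PowerSeries.trunc (n + 1) (S.A 0))
    (PowerSeries.trunc (n + 1) (S.A 1))
  set E : ℕ → PowerSeries ℂ := fun i => (Q i : PowerSeries ℂ) - S.A i with hE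
  set Δ : ℕ → PowerSeries ℂ := fun i => PowerSeries.mk (fun m => S.δ m i) with hΔ
  have hrec : ∀ i, E (i + 2) = ((Q (i + 1) : PowerSeries ℂ) + S.A (i + 1)) * E (i + 1) - E i +
      Δ (i + 1) := by
    intro i
    simp only [hE, hΔ, hQ i, S.A_eqn i]
    push_cast
    ring
  have hΔdvd : ∀ i, PowerSeries.X ^ n ∣ Δ i := by
    intro i
    rw [PowerSeries.X_pow_dvd_iff]
    intro m hm
    simp only [hΔ, PowerSeries.coeff_mk, δ, (ih m hm).1, (ih m hm).2]
    simp
  have hE0 : ∀ m < n + 1, PowerSeries.coeff m (E 0) = 0 := by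
    intro m hm
    simp only [hE, hQ0, map_sub, Polynomial.coeff_coe, PowerSeries.coeff_trunc, if_pos hm, sub_self]
  have hE1 : ∀ m < n + 1, PowerSeries.coeff m (E 1) = 0 := by
    intro m hm
    simp only [hE, hQ1, map_sub, Polynomial.coeff_coe, PowerSeries.coeff_trunc, if_pos hm, sub_self]
  have hdvd : ∀ i, PowerSeries.X ^ n ∣ E i ∧ PowerSeries.X ^ n ∣ E (i + 1) := by
    intro i
    induction i with
    | zero =>
      constructor
      · rw [PowerSeries.X_pow_dvd_iff]; exact fun m hm => hE0 m (by omega)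
      · rw [PowerSeries.X_pow_dvd_iff]; exact fun m hm => hE1 m (by omega)
    | succ i ihi =>
      refine ⟨ihi.2, ?_⟩
      rw [hrec i]
      exact dvd_add (dvd_sub (Dvd.dvd.mul_left ihi.2 _) ihi.1) (hΔdvd _)
  have hconst : ∀ i, PowerSeries.constantCoeff (Q i : PowerSeries ℂ) = z (i : ZMod k) := by
    intro i
    have h1 : PowerSeries.constantCoeff (E i) = 0 := by
      rw [← PowerSeries.X_dvd_iff]
      exact (dvd_pow_self _ hn).trans (hdvd i).1
    simp only [hE, map_sub, S.constantCoeff_A] at h1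
    linear_combination h1
  set D : ℕ → ℂ := fun i => PowerSeries.coeff n (E i) with hD
  have hDrec : ∀ i, D (i + 2) = 2 * z ((i + 1 : ℕ) : ZMod k) * D (i + 1) - D i + S.δ n (i + 1) := by
    intro i
    simp only [hD, hrec i, map_add, map_sub, hΔ, PowerSeries.coeff_mk]
    congr 2
    obtain ⟨G, hG⟩ := (hdvd i).2
    rw [hG]
    have e1 : ((Q (i + 1) : PowerSeries ℂ) + S.A (i + 1)) * (PowerSeries.X ^ n * G) =
        PowerSeries.X ^ n * (((Q (i + 1) : PowerSeries ℂ) + S.A (i + 1)) * G) := by ring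
    rw [e1]
    have e2 : ∀ H : PowerSeries ℂ, PowerSeries.coeff n (PowerSeries.X ^ n * H) =
        PowerSeries.constantCoeff H := by
      intro H
      have := PowerSeries.coeff_X_pow_mul H n 0
      rw [zero_add] at this
      rw [this, PowerSeries.coeff_zero_eq_constantCoeff_apply]
    rw [e2, e2, map_mul, map_add, hconst, S.constantCoeff_A]
    ring
  have hD0 : D 0 = 0 := hE0 n (by omega)
  have hD1 : D 1 = 0 := hE1 n (by omega)
  -- limits
  have hτ := S.tau_tendsto hAI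
  have hcoeff0 : ∀ i, (Q i).coeff 0 = z (i : ZMod k) := by
    intro i
    rw [← hconst i, ← PowerSeries.coeff_zero_eq_constantCoeff_apply, Polynomial.coeff_coe]
  obtain ⟨hl0, hl1⟩ := hAI Q (by simpa using hcoeff0 0) (by simpa using hcoeff0 1) hQ n
  have hDx : ∀ i, D i = (Q i).coeff n - S.x n i := by
    intro i
    simp only [hD, hE, map_sub, Polynomial.coeff_coe, S.coeff_A hn]
  have hx0 : Tendsto (fun i => S.x n (k * N i)) atTop (𝓝 (S.x n 0)) := by
    have h1 : Tendsto (fun i => evC (S.τ ^ (k * N i)) (S.w n 0)) atTop (𝓝 (evC 1 (S.w n 0))) := by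
      refine evC_tendsto _ _ _ ?_
      simpa using hτ
    simpa [x] using h1
  have hx1 : Tendsto (fun i => S.x n (k * N i + 1)) atTop (𝓝 (S.x n 1)) := by
    have h1 : Tendsto (fun i => evC (S.τ ^ (k * N i + 1)) (S.w n 1)) atTop
        (𝓝 (evC (S.τ ^ 1) (S.w n 1))) := by
      refine evC_tendsto _ _ _ ?_
      have := hτ.mul_const (S.τ : ℂ)
      simpa [pow_succ] using this
    simpa [x] using h1
  have hDl0 : Tendsto (fun i => D (k * N i)) atTop (𝓝 0) := by
    have h1 := hl0.sub hx0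
    have h2 : (Q 0).coeff n - S.x n 0 = 0 := by rw [← hDx 0, hD0]
    rw [h2] at h1
    simpa only [hDx] using h1
  have hDl1 : Tendsto (fun i => D (k * N i + 1)) atTop (𝓝 0) := by
    have h1 := hl1.sub hx1
    have h2 : (Q 1).coeff n - S.x n 1 = 0 := by rw [← hDx 1, hD1]
    rw [h2] at h1
    simpa only [hDx] using h1
  have hkpos : 0 < k := Nat.pos_of_ne_zero (NeZero.ne k)
  have hτ0 : (S.τ : ℂ) ≠ 0 := S.τ.ne_zero
  have h2k : (S.τ : ℂ) ^ (2 * k) ≠ 1 := S.hτ _ (by omega)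
  have hτinv : Tendsto (fun i => ((S.τ : ℂ) ^ (k * N i))⁻¹) atTop (𝓝 1) := by
    simpa using hτ.inv₀ one_ne_zero
  constructor
  · -- use the β-solution
    have hs := secular (k := k) (fun i => z (i : ZMod k)) D S.bt (S.δ n) hD0 hD1 hDrec S.bt_eqn
      (S.β 0 * S.sp n) (S.β 0 * S.sm n) (((S.τ : ℂ) ^ (2 * k))⁻¹)
      (by rwa [ne_eq, inv_eq_one]) (by
        intro i
        simp only [δ, bt, ZMod.natCast_eq_zero_iff]
        by_cases hi : k ∣ i
        · obtain ⟨m, rfl⟩ := hi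
          rw [if_pos (dvd_mul_right _ _), if_pos (dvd_mul_right _ _),
            Nat.mul_div_cancel_left _ hkpos, natCast_mul_self']
          have e1 : (((S.τ : ℂ) ^ (2 * k))⁻¹) ^ m = ((S.τ : ℂ) ^ (k * m))⁻¹ * ((S.τ : ℂ) ^ (k * m))⁻¹ := by
            rw [inv_pow, ← pow_mul, ← mul_inv, ← pow_add]
            congr 2
            ring
          rw [e1]
          have e2 : (S.τ : ℂ) ^ (k * m) ≠ 0 := pow_ne_zero _ hτ0
          field_simp
        · rw [if_neg hi, if_neg hi, mul_zero]) hkpos N hN (by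
        have h1 := hτinv.mul hτinv
        rw [mul_one] at h1
        refine h1.congr (fun i => ?_)
        rw [inv_pow, ← pow_mul, ← mul_inv, ← pow_add]
        congr 2
        ring) (by
        have h1 : Tendsto (fun i => S.bt (k * N i)) atTop (𝓝 (S.β 0)) := by
          have := hτinv.mul_const (S.β 0 : ℂ)
          simpa [bt] using this
        have h2 : Tendsto (fun i => S.bt (k * N i + 1)) atTop (𝓝 ((S.τ : ℂ)⁻¹ * S.β 1)) := by
          have := hτinv.mul_const ((S.τ : ℂ)⁻¹ * S.β 1)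
          refine (by simpa using this : Tendsto _ atTop (𝓝 ((S.τ : ℂ)⁻¹ * S.β 1))).congr
            (fun i => ?_)
          simp only [bt, pow_succ, mul_inv]
          push_cast
          simp
          ring
        have := (h1.mul hDl1).sub (h2.mul hDl0)
        simpa using this)
    exact (mul_eq_zero.mp hs).resolve_left (S.hβ 0)
  · have hs := secular (k := k) (fun i => z (i : ZMod k)) D (atS S.τ S.α) (S.δ n) hD0 hD1 hDrec
      S.at_eqn (S.α 0 * S.sm n) (S.α 0 * S.sp n) ((S.τ : ℂ) ^ (2 * k))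
      h2k (by
        intro i
        simp only [δ, atS, ZMod.natCast_eq_zero_iff]
        by_cases hi : k ∣ i
        · obtain ⟨m, rfl⟩ := hi
          rw [if_pos (dvd_mul_right _ _), if_pos (dvd_mul_right _ _),
            Nat.mul_div_cancel_left _ hkpos, natCast_mul_self']
          have e1 : ((S.τ : ℂ) ^ (2 * k)) ^ m = ((S.τ : ℂ) ^ (k * m)) * ((S.τ : ℂ) ^ (k * m)) := by
            rw [← pow_mul, ← pow_add]
            congr 1
            ring
          rw [e1]
          have e2 : (S.τ : ℂ) ^ (k * m) ≠ 0 := pow_ne_zero _ hτ0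
          field_simp
          ring
        · rw [if_neg hi, if_neg hi, mul_zero]) hkpos N hN (by
        have h1 := hτ.mul hτ
        rw [mul_one] at h1
        refine h1.congr (fun i => ?_)
        rw [← pow_mul, ← pow_add]
        congr 1
        ring) (by
        have h1 : Tendsto (fun i => atS S.τ S.α (k * N i)) atTop (𝓝 (S.α 0)) := by
          have := hτ.mul_const (S.α 0 : ℂ)
          simpa [atS] using this
        have h2 : Tendsto (fun i => atS S.τ S.α (k * N i + 1)) atTop (𝓝 ((S.τ : ℂ) * S.α 1)) := by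
          have := hτ.mul_const ((S.τ : ℂ) * S.α 1)
          refine (by simpa using this : Tendsto _ atTop (𝓝 ((S.τ : ℂ) * S.α 1))).congr
            (fun i => ?_)
          simp only [atS, pow_succ]
          push_cast
          simp
          ring
        have := (h1.mul hDl1).sub (h2.mul hDl0)
        simpa using this)
    exact (mul_eq_zero.mp hs).resolve_left (S.hα 0)

end FSetup

end Pool.Agent.MPf2967f.Fin
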