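import Mathlib
import Pool.Agent.Lib.MP_f2967f_an.Fin.Defect

set_option autoImplicit false

/-!
# The first five homogeneous parts
-/

namespace Pool.Agent.MPf2967f.Fin

open LaurentPolynomial

/-- The equations for the first five orders of the formal solution (those harmonics which matter). -/
structure Jet (k : ℕ) [NeZero k] (z : ZMod k → ℂ) (τ : ℂ)
    (α β a g g' p q h a4 g4 p5 : ZMod k → ℂ) : Prop where
  hα : ∀ j, τ * α (j + 1) + τ⁻¹ * α (j - 1) = 2 * z j * α j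
  hβ : ∀ j, τ⁻¹ * β (j + 1) + τ * β (j - 1) = 2 * z j * β j
  ha : ∀ j, a (j + 1) + a (j - 1) = 2 * z j * a j + 2 * α j * β j
  hg : ∀ j, τ ^ 2 * g (j + 1) + (τ⁻¹) ^ 2 * g (j - 1) = 2 * z j * g j + α j ^ 2
  hg' : ∀ j, (τ⁻¹) ^ 2 * g' (j + 1) + τ ^ 2 * g' (j - 1) = 2 * z j * g' j + β j ^ 2
  hp : ∀ j, τ * p (j + 1) + τ⁻¹ * p (j - 1) = 2 * z j * p j + 2 * (α j * a j + β j * g j)
  hq : ∀ j, τ⁻¹ * q (j + 1) + τ * q (j - 1) = 2 * z j * q j + 2 * (β j * a j + α j * g' j)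
  hh : ∀ j, τ ^ 3 * h (j + 1) + (τ⁻¹) ^ 3 * h (j - 1) = 2 * z j * h j + 2 * α j * g j
  ha4 : ∀ j, a4 (j + 1) + a4 (j - 1) = 2 * z j * a4 j + 2 * (α j * q j + β j * p j) + a j ^ 2 +
    2 * g j * g' j
  hg4 : ∀ j, τ ^ 2 * g4 (j + 1) + (τ⁻¹) ^ 2 * g4 (j - 1) = 2 * z j * g4 j +
    2 * (α j * p j + β j * h j + a j * g j)
  hp5 : ∀ j, τ * p5 (j + 1) + τ⁻¹ * p5 (j - 1) = 2 * z j * p5 j +
    2 * (α j * a4 j + β j * g4 j + p j * a j + q j * g j + h j * g' j)

section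

variable {k : ℕ} [NeZero k] {c : ℂ} {z : ZMod k → ℂ}

lemma laurent_eq_of_allowed {u : ℂ[T;T⁻¹]} (s : Finset ℤ) (hs : ∀ h, u.coeff h ≠ 0 → h ∈ s) :
    u = ∑ h ∈ s, C (u.coeff h) * T h := by
  classical
  ext h
  rw [AddMonoidAlgebra.coeff_sum, Finset.sum_apply']
  simp only [← single_eq_C_mul_T, AddMonoidAlgebra.coeff_single, Finsupp.single_apply]
  rw [Finset.sum_ite_eq']
  split_ifs with hh
  · rfl
  · by_contra hne
    exact hh (hs h hne)

lemma allowed_two {h : ℤ} (hh : Allowed 2 h) : h ∈ ({0, 2, -2} : Finset ℤ) := by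
  obtain ⟨a, b, h1, h2⟩ := hh
  simp only [Finset.mem_insert, Finset.mem_singleton]
  omega

lemma allowed_three {h : ℤ} (hh : Allowed 3 h) : h ∈ ({1, -1, 3, -3} : Finset ℤ) := by
  obtain ⟨a, b, h1, h2⟩ := hh
  simp only [Finset.mem_insert, Finset.mem_singleton]
  omega

lemma allowed_four {h : ℤ} (hh : Allowed 4 h) : h ∈ ({0, 2, -2, 4, -4} : Finset ℤ) := by
  obtain ⟨a, b, h1, h2⟩ := hh
  simp only [Finset.mem_insert, Finset.mem_singleton]
  omega

lemma coeff_CT_mul (x y : ℂ) (m n h : ℤ) :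
    ((C x * T m : ℂ[T;T⁻¹]) * (C y * T n)).coeff h = if m + n = h then x * y else 0 := by
  rw [← single_eq_C_mul_T, ← single_eq_C_mul_T, AddMonoidAlgebra.single_mul_single,
    AddMonoidAlgebra.coeff_single, Finsupp.single_apply]

lemma sum_anti (n : ℕ) (f : ℕ → ℕ → ℂ[T;T⁻¹]) (h : ℤ) :
    (∑ p ∈ Finset.HasAntidiagonal.antidiagonal n, f p.1 p.2).coeff h =
      ∑ i ∈ Finset.range (n + 1), (f i (n - i)).coeff h := by
  rw [Finset.Nat.sum_antidiagonal_eq_sum_range_succ_mk, AddMonoidAlgebra.coeff_sum,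
    Finset.sum_apply']

lemma coeff_CT (x : ℂ) (m h : ℤ) :
    (C x * T m : ℂ[T;T⁻¹]).coeff h = if m = h then x else 0 := by
  rw [← single_eq_C_mul_T, AddMonoidAlgebra.coeff_single, Finsupp.single_apply]

theorem FSetup.jet (S : FSetup k c z) (hdef : ∀ n, S.sp n = 0 ∧ S.sm n = 0) :
    ∃ a g g' p q h a4 g4 p5 : ZMod k → ℂ, Jet k z S.τ S.α S.β a g g' p q h a4 g4 p5 := by
  have hE : ∀ n j (h : ℤ), (∑ i ∈ Finset.range (n + 1), (S.w i j * S.w (n - i) j).coeff h) +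
      2 * z j * (S.w n j).coeff h =
      (S.τ : ℂ) ^ h * (S.w n (j + 1)).coeff h + (S.τ : ℂ) ^ (-h) * (S.w n (j - 1)).coeff h := by
    intro n j h
    have := S.hE n j h
    rw [(hdef n).1, (hdef n).2, sum_anti n (fun a b => S.w a j * S.w b j)] at this
    simpa using this
  obtain ⟨a, ha⟩ : ∃ a : ZMod k → ℂ, ∀ j, (S.w 2 j).coeff 0 = a j := ⟨_, fun _ => rfl⟩
  obtain ⟨g, hg⟩ : ∃ a : ZMod k → ℂ, ∀ j, (S.w 2 j).coeff 2 = a j := ⟨_, fun _ => rfl⟩
  obtain ⟨g', hg'⟩ : ∃ a : ZMod k → ℂ, ∀ j, (S.w 2 j).coeff (-2) = a j := ⟨_, fun _ => rfl⟩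
  obtain ⟨p, hp⟩ : ∃ a : ZMod k → ℂ, ∀ j, (S.w 3 j).coeff 1 = a j := ⟨_, fun _ => rfl⟩
  obtain ⟨q, hq⟩ : ∃ a : ZMod k → ℂ, ∀ j, (S.w 3 j).coeff (-1) = a j := ⟨_, fun _ => rfl⟩
  obtain ⟨h, hh⟩ : ∃ a : ZMod k → ℂ, ∀ j, (S.w 3 j).coeff 3 = a j := ⟨_, fun _ => rfl⟩
  obtain ⟨h', hh'⟩ : ∃ a : ZMod k → ℂ, ∀ j, (S.w 3 j).coeff (-3) = a j := ⟨_, fun _ => rfl⟩
  obtain ⟨a4, ha4⟩ : ∃ a : ZMod k → ℂ, ∀ j, (S.w 4 j).coeff 0 = a j := ⟨_, fun _ => rfl⟩
  obtain ⟨g4, hg4⟩ : ∃ a : ZMod k → ℂ, ∀ j, (S.w 4 j).coeff 2 = a j := ⟨_, fun _ => rfl⟩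
  obtain ⟨g4', hg4'⟩ : ∃ a : ZMod k → ℂ, ∀ j, (S.w 4 j).coeff (-2) = a j := ⟨_, fun _ => rfl⟩
  obtain ⟨m4, hm4⟩ : ∃ a : ZMod k → ℂ, ∀ j, (S.w 4 j).coeff 4 = a j := ⟨_, fun _ => rfl⟩
  obtain ⟨m4', hm4'⟩ : ∃ a : ZMod k → ℂ, ∀ j, (S.w 4 j).coeff (-4) = a j := ⟨_, fun _ => rfl⟩
  obtain ⟨p5, hp5⟩ : ∃ a : ZMod k → ℂ, ∀ j, (S.w 5 j).coeff 1 = a j := ⟨_, fun _ => rfl⟩
  have w2 : ∀ j, S.w 2 j = C (a j) * T 0 + C (g j) * T 2 + C (g' j) * T (-2) := by
    intro j
    rw [laurent_eq_of_allowed _ (fun h hh => allowed_two (S.hsupp 2 j h hh))]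
    rw [Finset.sum_insert (by decide), Finset.sum_insert (by decide), Finset.sum_singleton,
      ha, hg, hg']
    ring
  have w3 : ∀ j, S.w 3 j = C (p j) * T 1 + C (q j) * T (-1) +
      C (h j) * T 3 + C (h' j) * T (-3) := by
    intro j
    rw [laurent_eq_of_allowed _ (fun h hh => allowed_three (S.hsupp 3 j h hh))]
    rw [Finset.sum_insert (by decide), Finset.sum_insert (by decide),
      Finset.sum_insert (by decide), Finset.sum_singleton, hp, hq, hh, hh']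
    ring
  have w4 : ∀ j, S.w 4 j = C (a4 j) * T 0 + C (g4 j) * T 2 +
      C (g4' j) * T (-2) + C (m4 j) * T 4 + C (m4' j) * T (-4) := by
    intro j
    rw [laurent_eq_of_allowed _ (fun h hh => allowed_four (S.hsupp 4 j h hh))]
    rw [Finset.sum_insert (by decide), Finset.sum_insert (by decide),
      Finset.sum_insert (by decide), Finset.sum_insert (by decide), Finset.sum_singleton,
      ha4, hg4, hg4', hm4, hm4']
    ring
  have ht : (S.τ : ℂ) ≠ 0 := S.τ.ne_zero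
  refine ⟨a, g, g', p, q, h, a4, g4, p5, S.hEig.hα, S.hEig.hβ, ?_, ?_, ?_, ?_, ?_, ?_, ?_, ?_, ?_⟩
  · intro j
    have h1 := hE 2 j (0)
    simp only [Finset.sum_range_succ, Finset.sum_range_zero, S.hw0, S.hw1, Nat.sub_self,
      Nat.reduceSub, zero_mul, mul_zero, add_mul, mul_add, AddMonoidAlgebra.coeff_add,
      Finsupp.add_apply, coeff_CT_mul, AddMonoidAlgebra.coeff_zero, Finsupp.zero_apply,
      ha] at h1
    norm_num [zpow_neg] at h1
    try simp only [inv_pow]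
    linear_combination -h1
  · intro j
    have h1 := hE 2 j (2)
    simp only [Finset.sum_range_succ, Finset.sum_range_zero, S.hw0, S.hw1, Nat.sub_self,
      Nat.reduceSub, zero_mul, mul_zero, add_mul, mul_add, AddMonoidAlgebra.coeff_add,
      Finsupp.add_apply, coeff_CT_mul, AddMonoidAlgebra.coeff_zero, Finsupp.zero_apply,
      hg] at h1
    norm_num [zpow_neg] at h1
    try simp only [inv_pow]
    linear_combination -h1
  · intro j
    have h1 := hE 2 j (-2)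
    simp only [Finset.sum_range_succ, Finset.sum_range_zero, S.hw0, S.hw1, Nat.sub_self,
      Nat.reduceSub, zero_mul, mul_zero, add_mul, mul_add, AddMonoidAlgebra.coeff_add,
      Finsupp.add_apply, coeff_CT_mul, AddMonoidAlgebra.coeff_zero, Finsupp.zero_apply,
      hg'] at h1
    norm_num [zpow_neg] at h1
    try simp only [inv_pow]
    linear_combination -h1
  · intro j
    have h1 := hE 3 j (1)
    simp only [Finset.sum_range_succ, Finset.sum_range_zero, S.hw0, S.hw1, w2, Nat.sub_self,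
      Nat.reduceSub, zero_mul, mul_zero, add_mul, mul_add, AddMonoidAlgebra.coeff_add,
      Finsupp.add_apply, coeff_CT_mul, AddMonoidAlgebra.coeff_zero, Finsupp.zero_apply,
      hp] at h1
    norm_num [zpow_neg] at h1
    try simp only [inv_pow]
    linear_combination -h1
  · intro j
    have h1 := hE 3 j (-1)
    simp only [Finset.sum_range_succ, Finset.sum_range_zero, S.hw0, S.hw1, w2, Nat.sub_self,
      Nat.reduceSub, zero_mul, mul_zero, add_mul, mul_add, AddMonoidAlgebra.coeff_add,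
      Finsupp.add_apply, coeff_CT_mul, AddMonoidAlgebra.coeff_zero, Finsupp.zero_apply,
      hq] at h1
    norm_num [zpow_neg] at h1
    try simp only [inv_pow]
    linear_combination -h1
  · intro j
    have h1 := hE 3 j (3)
    simp only [Finset.sum_range_succ, Finset.sum_range_zero, S.hw0, S.hw1, w2, Nat.sub_self,
      Nat.reduceSub, zero_mul, mul_zero, add_mul, mul_add, AddMonoidAlgebra.coeff_add,
      Finsupp.add_apply, coeff_CT_mul, AddMonoidAlgebra.coeff_zero, Finsupp.zero_apply,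
      hh] at h1
    norm_num [zpow_neg] at h1
    try simp only [inv_pow]
    linear_combination -h1
  · intro j
    have h1 := hE 4 j (0)
    simp only [Finset.sum_range_succ, Finset.sum_range_zero, S.hw0, S.hw1, w2, w3, Nat.sub_self,
      Nat.reduceSub, zero_mul, mul_zero, add_mul, mul_add, AddMonoidAlgebra.coeff_add,
      Finsupp.add_apply, coeff_CT_mul, AddMonoidAlgebra.coeff_zero, Finsupp.zero_apply,
      ha4] at h1
    norm_num [zpow_neg] at h1
    try simp only [inv_pow]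
    linear_combination -h1
  · intro j
    have h1 := hE 4 j (2)
    simp only [Finset.sum_range_succ, Finset.sum_range_zero, S.hw0, S.hw1, w2, w3, Nat.sub_self,
      Nat.reduceSub, zero_mul, mul_zero, add_mul, mul_add, AddMonoidAlgebra.coeff_add,
      Finsupp.add_apply, coeff_CT_mul, AddMonoidAlgebra.coeff_zero, Finsupp.zero_apply,
      hg4] at h1
    norm_num [zpow_neg] at h1
    try simp only [inv_pow]
    linear_combination -h1
  · intro j
    have h1 := hE 5 j (1)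
    simp only [Finset.sum_range_succ, Finset.sum_range_zero, S.hw0, S.hw1, w2, w3, w4, Nat.sub_self,
      Nat.reduceSub, zero_mul, mul_zero, add_mul, mul_add, AddMonoidAlgebra.coeff_add,
      Finsupp.add_apply, coeff_CT_mul, AddMonoidAlgebra.coeff_zero, Finsupp.zero_apply,
      hp5] at h1
    norm_num [zpow_neg] at h1
    try simp only [inv_pow]
    linear_combination -h1

end

end Pool.Agent.MPf2967f.Fin
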