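import Mathlib
import Pool.Agent.Lib.MP_f2967f_an.Fin.Jet
import Pool.Agent.Lib.MP_f2967f_an.Fin.Est

set_option autoImplicit false

/-!
# From the homogeneous parts to the local equations
-/

namespace Pool.Agent.MPf2967f.Fin

section

variable {k : ℕ} [NeZero k]

lemma cyc_ind {Q : ZMod k → Prop} (i : ZMod k) (hi : Q i) (hs : ∀ j, Q j → Q (j + 1)) :
    ∀ j, Q j := by
  have h : ∀ n : ℕ, Q (i + n) := by
    intro n
    induction n with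
    | zero => simpa using hi
    | succ n ih =>
      have := hs _ ih
      push_cast
      rwa [← add_assoc]
  intro j
  have h1 := h (j - i).val
  rw [ZMod.natCast_zmod_val] at h1
  simpa using h1

section bbound

variable {ϖ : ℂ} {b : ZMod k → ℂ} (hb : ∀ j, b j ^ 2 = 1 + 2 * ϖ * (b (j + 1) + b (j - 1)))
  (hω : ‖ϖ‖ ≤ 1 / 100)

include hb hω

lemma bb_le (j : ZMod k) : ‖b j‖ ≤ 1.04 := by
  have h0 := norm_nonneg ϖ
  have hM : ‖b‖ ≤ 1.04 := by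
    obtain ⟨i, hi⟩ := Finite.exists_max (fun j => ‖b j‖)
    have hbi : ‖b‖ = ‖b i‖ := le_antisymm
      ((pi_norm_le_iff_of_nonneg (norm_nonneg _)).mpr hi) (norm_le_pi_norm b i)
    have h1 := congrArg norm (hb i)
    rw [norm_pow] at h1
    have h2 : ‖1 + 2 * ϖ * (b (i + 1) + b (i - 1))‖ ≤ 1 + 2 * ‖ϖ‖ * (‖b i‖ + ‖b i‖) := by
      refine (norm_add_le _ _).trans ?_
      rw [norm_one, norm_mul, norm_mul, Complex.norm_ofNat]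
      have := (norm_add_le (b (i + 1)) (b (i - 1))).trans (add_le_add (hi _) (hi _))
      gcongr
    rw [← h1] at h2
    rw [hbi]
    by_contra hcon
    push Not at hcon
    nlinarith [norm_nonneg (b i)]
  exact (norm_le_pi_norm b j).trans hM

lemma bb_ge (j : ZMod k) : 0.97 ≤ ‖b j‖ := by
  have h1 : ‖b j ^ 2 - 1‖ ≤ 4.16 * ‖ϖ‖ := by
    rw [hb j]
    have h1 := bb_le hb hω (j + 1)
    have h2 := bb_le hb hω (j - 1)
    have h3 : ‖1 + 2 * ϖ * (b (j + 1) + b (j - 1)) - 1‖ ≤ 2 * ‖ϖ‖ * (1.04 + 1.04) := by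
      rw [add_sub_cancel_left, norm_mul, norm_mul, Complex.norm_ofNat]
      have := (norm_add_le (b (j + 1)) (b (j - 1))).trans (add_le_add h1 h2)
      gcongr
    linarith
  have h2 : 1 - ‖b j ^ 2 - 1‖ ≤ ‖b j ^ 2‖ := by
    have := norm_sub_le (b j ^ 2) (b j ^ 2 - 1)
    rw [sub_sub_cancel, norm_one] at this
    linarith
  rw [norm_pow] at h2
  by_contra hcon
  push Not at hcon
  nlinarith [norm_nonneg (b j)]

/-- the cone argument -/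
lemma cone {τ : ℂ} (hτ : 1 ≤ ‖τ‖) {α : ZMod k → ℂ} (hα0 : α ≠ 0)
    (hα : ∀ j, ϖ * (τ * α (j + 1) + τ⁻¹ * α (j - 1)) = b j * α j) :
    ∀ j, 0 < ‖α j‖ ∧ 0.96 * ‖α j‖ ≤ ‖ϖ * τ * α (j + 1)‖ := by
  have hτ0 : 0 < ‖τ‖ := by linarith
  have hinv : ‖τ‖⁻¹ ≤ 1 := inv_le_one_of_one_le₀ hτ
  have hinv0 : 0 ≤ ‖τ‖⁻¹ := inv_nonneg.mpr hτ0.le
  have hω0 := norm_nonneg ϖ
  have key : ∀ j, ‖b j‖ * ‖α j‖ ≤ ‖ϖ * τ * α (j + 1)‖ + ‖ϖ‖ * ‖τ‖⁻¹ * ‖α (j - 1)‖ := by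
    intro j
    rw [← norm_mul, ← hα j]
    have e : ϖ * (τ * α (j + 1) + τ⁻¹ * α (j - 1)) = ϖ * τ * α (j + 1) + ϖ * τ⁻¹ * α (j - 1) := by
      ring
    rw [e]
    refine (norm_add_le _ _).trans ?_
    rw [norm_mul (ϖ * τ⁻¹), norm_mul ϖ, norm_inv]
  obtain ⟨i, hi⟩ := Finite.exists_max (fun j => ‖α j‖)
  have hαi : 0 < ‖α i‖ := by
    rw [norm_pos_iff]
    intro h0
    apply hα0
    funext j
    have := hi j
    rw [h0, norm_zero] at this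
    exact norm_le_zero_iff.mp this
  refine cyc_ind i ⟨hαi, ?_⟩ ?_
  · have h1 := key i
    have h2 := bb_ge hb hω i
    have h3 : ‖ϖ‖ * ‖τ‖⁻¹ * ‖α (i - 1)‖ ≤ 1 / 100 * 1 * ‖α i‖ := by
      have := hi (i - 1)
      gcongr
    nlinarith
  · rintro j ⟨h1, h2⟩
    have h3 : 0 < ‖ϖ * τ * α (j + 1)‖ := by nlinarith
    have h4 : 0 < ‖α (j + 1)‖ := by
      rw [norm_mul] at h3
      exact pos_of_mul_pos_right h3 (norm_nonneg _)
    refine ⟨h4, ?_⟩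
    have h5 := key (j + 1)
    rw [add_sub_cancel_right] at h5
    have h6 := bb_ge hb hω (j + 1)
    have h7 : ‖ϖ‖ * ‖τ‖⁻¹ * ‖α j‖ ≤ ‖ϖ‖ ^ 2 * ‖α (j + 1)‖ / 0.96 := by
      rw [le_div_iff₀ (by norm_num)]
      have e1 : ‖ϖ‖ * ‖τ‖⁻¹ * ‖α j‖ * 0.96 = ‖ϖ‖ * ‖τ‖⁻¹ * (0.96 * ‖α j‖) := by ring
      rw [e1]
      have e2 : ‖ϖ‖ ^ 2 * ‖α (j + 1)‖ = ‖ϖ‖ * ‖τ‖⁻¹ * ‖ϖ * τ * α (j + 1)‖ := by
        rw [norm_mul, norm_mul]
        field_simp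
      rw [e2]
      gcongr
    have h8 : ‖ϖ‖ ^ 2 ≤ 1 / 10000 := by nlinarith
    have h9 : ‖ϖ‖ ^ 2 * ‖α (j + 1)‖ / 0.96 ≤ 0.01 * ‖α (j + 1)‖ := by
      rw [div_le_iff₀ (by norm_num)]
      nlinarith
    nlinarith

lemma tau_big {τ : ℂ} (hτ : 1 ≤ ‖τ‖) {α : ZMod k → ℂ} (hα0 : α ≠ 0)
    (hα : ∀ j, ϖ * (τ * α (j + 1) + τ⁻¹ * α (j - 1)) = b j * α j) : 1 < ‖τ‖ := by
  have hc := cone hb hω hτ hα0 hα
  obtain ⟨i, hi⟩ := Finite.exists_min (fun j => ‖α j‖)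
  have h1 := (hc (i - 1)).2
  rw [sub_add_cancel, norm_mul, norm_mul] at h1
  have h2 := hi (i - 1)
  have h3 := (hc i).1
  have h4 : 0.96 ≤ ‖ϖ‖ * ‖τ‖ := by
    by_contra hcon
    push Not at hcon
    nlinarith
  nlinarith [norm_nonneg ϖ]

end bbound

/-- From the first homogeneous parts to the local equations. -/
theorem Jet.loc {z : ZMod k → ℂ} {τ : ℂ} {α β a g g' p q h a4 g4 p5 : ZMod k → ℂ}
    (J : Jet k z τ α β a g g' p q h a4 g4 p5) {ϖ : ℂ} {b : ZMod k → ℂ} (hϖ0 : ϖ ≠ 0)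
    (hω : ‖ϖ‖ ≤ 1 / 100)
    (hb : ∀ j, b j ^ 2 = 1 + 2 * ϖ * (b (j + 1) + b (j - 1)))
    (hzb : ∀ j, 2 * z j * ϖ = b j) (hτ : 1 ≤ ‖τ‖) (hα0 : α ≠ 0) (hβ0 : β ≠ 0) :
    ∃ E F G H P â γ γ' η Δ μ A Γ d : ZMod k → ℂ,
      Loc k ϖ b E F G H P â γ γ' η Δ μ A Γ d ∧ ∑ j, d j = 0 := by
  have hτ0 : τ ≠ 0 := by
    rintro rfl
    norm_num at hτ
  have hα' : ∀ j, ϖ * (τ * α (j + 1) + τ⁻¹ * α (j - 1)) = b j * α j := by
    intro j
    rw [J.hα j, ← hzb j]; ring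
  have hβ' : ∀ j, ϖ * (τ⁻¹ * β (j + 1) + τ * β (j - 1)) = b j * β j := by
    intro j
    rw [J.hβ j, ← hzb j]; ring
  have cα := cone hb hω hτ hα0 hα'
  have cβ : ∀ j, 0 < ‖β (-j)‖ ∧ 0.96 * ‖β (-j)‖ ≤ ‖ϖ * τ * β (-(j + 1))‖ := by
    refine cone (b := fun j => b (-j)) (α := fun j => β (-j)) ?_ hω hτ ?_ ?_
    · intro j
      have := hb (-j)
      rw [this]
      ring_nf
    · intro h0
      apply hβ0
      funext j
      have := congrFun h0 (-j)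
      simpa using this
    · intro j
      have := hβ' (-j)
      rw [← this]
      ring_nf
  have hαn : ∀ j, α j ≠ 0 := fun j => norm_pos_iff.mp (cα j).1
  have hβn : ∀ j, β j ≠ 0 := fun j => by
    have := norm_pos_iff.mp (cβ (-j)).1
    simpa using this
  have cβ' : ∀ j, 0.96 * ‖β j‖ ≤ ‖ϖ * τ * β (j - 1)‖ := by
    intro j
    have := (cβ (-j)).2
    rw [neg_neg] at this
    have e : -(-j + 1) = j - 1 := by ring
    rwa [e] at this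
  set E : ZMod k → ℂ := fun j => ϖ * τ * α (j + 1) / α j with hE
  set F : ZMod k → ℂ := fun j => α j / (ϖ * τ * α (j + 1)) with hF
  set G : ZMod k → ℂ := fun j => ϖ * τ * β (j - 1) / β j with hG
  set H : ZMod k → ℂ := fun j => β j / (ϖ * τ * β (j - 1)) with hH
  have hEF : ∀ j, E j * F j = 1 := by
    intro j
    have := hαn j
    have := hαn (j + 1)
    simp only [hE, hF]
    field_simp
  have hGH : ∀ j, G j * H j = 1 := by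
    intro j
    have := hβn j
    have := hβn (j - 1)
    simp only [hG, hH]
    field_simp
  have hFn : ∀ j, ‖F j‖ ≤ 1.042 := by
    intro j
    simp only [hF]
    rw [norm_div, div_le_iff₀ (by
      rw [norm_pos_iff]; exact mul_ne_zero (mul_ne_zero hϖ0 hτ0) (hαn _))]
    have := (cα j).2
    nlinarith [norm_nonneg (α j)]
  have hHn : ∀ j, ‖H j‖ ≤ 1.042 := by
    intro j
    simp only [hH]
    rw [norm_div, div_le_iff₀ (by
      rw [norm_pos_iff]; exact mul_ne_zero (mul_ne_zero hϖ0 hτ0) (hβn _))]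
    have := cβ' j
    nlinarith [norm_nonneg (β j)]
  -- first order relations
  have r1 : ∀ j, ϖ * τ * α (j + 1) = E j * α j := by
    intro j
    have := hαn j
    simp only [hE]
    field_simp
  have r2 : ∀ j, ϖ * τ⁻¹ * α (j - 1) = ϖ ^ 2 * F (j - 1) * α j := by
    intro j
    have := hαn j
    simp only [hF, sub_add_cancel]
    field_simp
  have r2' : ∀ j, ϖ * τ⁻¹ * α j = ϖ ^ 2 * F j * α (j + 1) := by
    intro j
    have := r2 (j + 1)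
    rwa [add_sub_cancel_right] at this
  have r3 : ∀ j, ϖ * τ * β (j - 1) = G j * β j := by
    intro j
    have := hβn j
    simp only [hG]
    field_simp
  have r4 : ∀ j, ϖ * τ⁻¹ * β (j + 1) = ϖ ^ 2 * H (j + 1) * β j := by
    intro j
    have := hβn j
    have := hβn (j + 1)
    simp only [hH, add_sub_cancel_right]
    field_simp
  have e0 : ∀ j, E j = b j - ϖ ^ 2 * F (j - 1) := by
    intro j
    apply mul_right_cancel₀ (hαn j)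
    linear_combination hα' j - r1 j - r2 j
  have e0' : ∀ j, G j = b j - ϖ ^ 2 * H (j + 1) := by
    intro j
    apply mul_right_cancel₀ (hβn j)
    linear_combination hβ' j - r3 j - r4 j
  -- the Wronskian
  set W : ZMod k → ℂ := fun j => E j * (α j * β j) - ϖ ^ 2 * F j * (α (j + 1) * β (j + 1)) with hW
  have hWeq : ∀ j, W j = ϖ * (τ * α (j + 1) * β j - τ⁻¹ * α j * β (j + 1)) := by
    intro j
    simp only [hW]
    linear_combination (-β j) * r1 j + β (j + 1) * r2' j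
  have hWc : ∀ j, W (j + 1) = W j := by
    intro j
    rw [hWeq, hWeq]
    have h1 := J.hα (j + 1)
    have h2 := J.hβ (j + 1)
    rw [add_sub_cancel_right] at h1 h2
    linear_combination ϖ * (β (j + 1) * h1 - α (j + 1) * h2)
  obtain ⟨s, hs⟩ : ∃ s, ∀ j, W j = s :=
    ⟨W 0, cyc_ind 0 rfl (fun j hj => by rw [hWc, hj])⟩
  have hs0 : s ≠ 0 := by
    intro h0
    obtain ⟨i, hi⟩ := Finite.exists_max (fun j => ‖α j * β j‖)
    have hi0 : 0 < ‖α i * β i‖ := by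
      rw [norm_pos_iff]
      exact mul_ne_zero (hαn i) (hβn i)
    have h1 := hs i
    simp only [hW] at h1
    rw [h0, sub_eq_zero] at h1
    have h2 : α i * β i = ϖ ^ 2 * F i * F i * (α (i + 1) * β (i + 1)) := by
      have := hEF i
      linear_combination (F i) * h1 - (α i * β i) * this
    have h3 : ‖α i * β i‖ = ‖ϖ‖ ^ 2 * ‖F i‖ * ‖F i‖ * ‖α (i + 1) * β (i + 1)‖ := by
      conv_lhs => rw [h2]
      rw [norm_mul (ϖ ^ 2 * F i * F i), norm_mul (ϖ ^ 2 * F i), norm_mul (ϖ ^ 2), norm_pow]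
    have h4 := hFn i
    have h5 : ‖ϖ‖ ^ 2 * ‖F i‖ * ‖F i‖ * ‖α (i + 1) * β (i + 1)‖ ≤
        (1 / 100) ^ 2 * 1.042 * 1.042 * ‖α i * β i‖ := by
      have := hi (i + 1)
      gcongr
    rw [← h3] at h5
    linarith
  -- scaled quantities
  obtain ⟨P, hP⟩ : ∃ P : ZMod k → ℂ, ∀ j, α j * β j = s * P j :=
    ⟨fun j => α j * β j / s, fun j => by field_simp⟩
  obtain ⟨â, hâ⟩ : ∃ â : ZMod k → ℂ, ∀ j, a j = â j * s * ϖ :=
    ⟨fun j => a j / (s * ϖ), fun j => by field_simp⟩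
  obtain ⟨γ, hγ⟩ : ∃ γ : ZMod k → ℂ, ∀ j, g j = γ j * α j ^ 2 * ϖ ^ 2 :=
    ⟨fun j => g j / (α j ^ 2 * ϖ ^ 2), fun j => by have := hαn j; field_simp⟩
  obtain ⟨γ', hγ'⟩ : ∃ γ' : ZMod k → ℂ, ∀ j, g' j = γ' j * β j ^ 2 * ϖ ^ 2 :=
    ⟨fun j => g' j / (β j ^ 2 * ϖ ^ 2), fun j => by have := hβn j; field_simp⟩
  obtain ⟨ρ, hρ⟩ : ∃ ρ : ZMod k → ℂ, ∀ j, p j = ρ j * s * α j * ϖ ^ 2 :=
    ⟨fun j => p j / (s * α j * ϖ ^ 2), fun j => by have := hαn j; field_simp⟩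
  obtain ⟨ς, hς⟩ : ∃ ς : ZMod k → ℂ, ∀ j, q j = ς j * s * β j * ϖ ^ 2 :=
    ⟨fun j => q j / (s * β j * ϖ ^ 2), fun j => by have := hβn j; field_simp⟩
  obtain ⟨η, hη⟩ : ∃ η : ZMod k → ℂ, ∀ j, h j = η j * α j ^ 3 * ϖ ^ 5 :=
    ⟨fun j => h j / (α j ^ 3 * ϖ ^ 5), fun j => by have := hαn j; field_simp⟩
  obtain ⟨A4, hA4⟩ : ∃ A4 : ZMod k → ℂ, ∀ j, a4 j = A4 j * s ^ 2 * ϖ ^ 3 :=
    ⟨fun j => a4 j / (s ^ 2 * ϖ ^ 3), fun j => by field_simp⟩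
  obtain ⟨Γ, hΓ⟩ : ∃ Γ : ZMod k → ℂ, ∀ j, g4 j = s * α j ^ 2 * ϖ ^ 4 * (2 * ρ j * γ j + Γ j) :=
    ⟨fun j => g4 j / (s * α j ^ 2 * ϖ ^ 4) - 2 * ρ j * γ j, fun j => by
      have := hαn j; field_simp; ring⟩
  obtain ⟨ρ', hρ'⟩ : ∃ ρ' : ZMod k → ℂ, ∀ j, p5 j = ρ' j * s ^ 2 * α j * ϖ ^ 4 :=
    ⟨fun j => p5 j / (s ^ 2 * α j * ϖ ^ 4), fun j => by have := hαn j; field_simp⟩
  have eP : ∀ j, E j * P j = 1 + ϖ ^ 2 * P (j + 1) * F j := by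
    intro j
    apply mul_left_cancel₀ hs0
    have h1 := hs j
    simp only [hW] at h1
    linear_combination h1 - (E j) * hP j + (ϖ ^ 2 * F j) * hP (j + 1)
  -- the fourth order symplectic invariant
  set S4 : ZMod k → ℂ := fun j => τ * (α (j + 1) * q j + p (j + 1) * β j) -
    τ⁻¹ * (β (j + 1) * p j + q (j + 1) * α j) + 2 * τ ^ 2 * g (j + 1) * g' j -
    2 * (τ⁻¹) ^ 2 * g' (j + 1) * g j with hS4
  have hS4c : ∀ j, S4 (j + 1) = S4 j := by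
    intro j
    simp only [hS4]
    have h1 := J.hα (j + 1)
    have h2 := J.hβ (j + 1)
    have h3 := J.hg (j + 1)
    have h4 := J.hg' (j + 1)
    have h5 := J.hp (j + 1)
    have h6 := J.hq (j + 1)
    rw [add_sub_cancel_right] at h1 h2 h3 h4 h5 h6
    linear_combination q (j + 1) * h1 - α (j + 1) * h6 + β (j + 1) * h5 - p (j + 1) * h2 +
      2 * g' (j + 1) * h3 - 2 * g (j + 1) * h4
  obtain ⟨s4, hs4⟩ : ∃ s4, ∀ j, S4 j = s ^ 2 * ϖ * s4 := by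
    refine ⟨S4 0 / (s ^ 2 * ϖ), cyc_ind 0 ?_ (fun j hj => by rw [hS4c, hj])⟩
    field_simp
  have hϖτ : ∀ j, ϖ * τ⁻¹ * (α j * β (j + 1)) = ϖ ^ 2 * F j * (s * P (j + 1)) := by
    intro j
    rw [← hP (j + 1)]
    linear_combination β (j + 1) * r2' j
  have hϖτ' : ∀ j, ϖ * τ * (α (j + 1) * β j) = E j * (s * P j) := by
    intro j
    rw [← hP j]
    linear_combination β j * r1 j
  have e5' : ∀ j, E j * P j * (ρ (j + 1) + ς j) - ϖ ^ 2 * P (j + 1) * F j * (ρ j + ς (j + 1)) +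
      2 * ϖ * γ (j + 1) * γ' j * (E j * P j) ^ 2 -
      2 * ϖ ^ 5 * γ j * γ' (j + 1) * (P (j + 1) * F j) ^ 2 = s4 := by
    intro j
    apply mul_left_cancel₀ (mul_ne_zero (pow_ne_zero 2 hs0) hϖ0)
    rw [← hs4 j]
    simp only [hS4, hρ, hς, hγ, hγ']
    have h1 := hϖτ j
    have h2 := hϖτ' j
    have h3 : τ ^ 2 * ϖ ^ 2 * (α (j + 1) * β j) ^ 2 = (E j * (s * P j)) ^ 2 := by
      rw [← h2]; ring
    have h4 : (τ⁻¹) ^ 2 * ϖ ^ 2 * (α j * β (j + 1)) ^ 2 = (ϖ ^ 2 * F j * (s * P (j + 1))) ^ 2 := by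
      rw [← h1]; ring
    linear_combination (-(ϖ * s * (ς j + ρ (j + 1)))) * h2 + (ϖ * s * (ρ j + ς (j + 1))) * h1 -
      (2 * ϖ ^ 2 * γ (j + 1) * γ' j) * h3 + (2 * ϖ ^ 2 * γ j * γ' (j + 1)) * h4
  -- the equations of the parts
  have e1 : ∀ j, b j * â j = ϖ * (â (j + 1) + â (j - 1)) - 2 * P j := by
    intro j
    apply mul_left_cancel₀ hs0
    have h1 := J.ha j
    rw [hâ, hâ, hâ] at h1
    linear_combination -h1 - (â j * s) * hzb j - 2 * hP j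
  have e2 : ∀ j, E j ^ 2 * γ (j + 1) = 1 + ϖ * b j * γ j - ϖ ^ 4 * F (j - 1) ^ 2 * γ (j - 1) := by
    intro j
    apply mul_left_cancel₀ (pow_ne_zero 2 (hαn j))
    have h1 := J.hg j
    rw [hγ, hγ, hγ] at h1
    have h3 : τ ^ 2 * ϖ ^ 2 * α (j + 1) ^ 2 = (E j * α j) ^ 2 := by rw [← r1]; ring
    have h4 : (τ⁻¹) ^ 2 * ϖ ^ 2 * α (j - 1) ^ 2 = (ϖ ^ 2 * F (j - 1) * α j) ^ 2 := by
      rw [← r2]; ring
    linear_combination h1 - γ (j + 1) * h3 - γ (j - 1) * h4 + (ϖ * γ j * α j ^ 2) * hzb j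
  have e2' : ∀ j, G j ^ 2 * γ' (j - 1) = 1 + ϖ * b j * γ' j -
      ϖ ^ 4 * H (j + 1) ^ 2 * γ' (j + 1) := by
    intro j
    apply mul_left_cancel₀ (pow_ne_zero 2 (hβn j))
    have h1 := J.hg' j
    rw [hγ', hγ', hγ'] at h1
    have h3 : τ ^ 2 * ϖ ^ 2 * β (j - 1) ^ 2 = (G j * β j) ^ 2 := by rw [← r3]; ring
    have h4 : (τ⁻¹) ^ 2 * ϖ ^ 2 * β (j + 1) ^ 2 = (ϖ ^ 2 * H (j + 1) * β j) ^ 2 := by
      rw [← r4]; ring
    linear_combination h1 - γ' (j - 1) * h3 - γ' (j + 1) * h4 + (ϖ * γ' j * β j ^ 2) * hzb j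
  have e3 : ∀ j, E j ^ 3 * η (j + 1) = 2 * γ j + ϖ ^ 2 * b j * η j -
      ϖ ^ 6 * F (j - 1) ^ 3 * η (j - 1) := by
    intro j
    apply mul_left_cancel₀ (mul_ne_zero (pow_ne_zero 2 hϖ0) (pow_ne_zero 3 (hαn j)))
    have h1 := J.hh j
    rw [hη, hη, hη, hγ] at h1
    have h3 : τ ^ 3 * ϖ ^ 3 * α (j + 1) ^ 3 = (E j * α j) ^ 3 := by rw [← r1]; ring
    have h4 : (τ⁻¹) ^ 3 * ϖ ^ 3 * α (j - 1) ^ 3 = (ϖ ^ 2 * F (j - 1) * α j) ^ 3 := by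
      rw [← r2]; ring
    linear_combination h1 - (ϖ ^ 2 * η (j + 1)) * h3 - (ϖ ^ 2 * η (j - 1)) * h4 +
      (ϖ ^ 4 * η j * α j ^ 3) * hzb j
  have e4 : ∀ j, E j * (ρ (j + 1) - ρ j) = 2 * â j + 2 * ϖ * γ j * P j +
      ϖ ^ 2 * F (j - 1) * (ρ j - ρ (j - 1)) := by
    intro j
    apply mul_left_cancel₀ (mul_ne_zero (mul_ne_zero hs0 (hαn j)) hϖ0)
    have h1 := J.hp j
    rw [hρ, hρ, hρ, hâ, hγ] at h1
    linear_combination h1 - (s * ϖ * ρ (j + 1)) * r1 j - (s * ϖ * ρ (j - 1)) * r2 j +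
      (s * ϖ * ρ j * α j) * hzb j - (s * α j * ϖ * ρ j) * e0 j +
      (2 * γ j * α j * ϖ ^ 2) * hP j
  have e6 : ∀ j, b j * A4 j = ϖ * (A4 (j + 1) + A4 (j - 1)) - 2 * P j * (ρ j + ς j) - â j ^ 2 -
      2 * ϖ ^ 2 * γ j * γ' j * P j ^ 2 := by
    intro j
    apply mul_left_cancel₀ (mul_ne_zero (pow_ne_zero 2 hs0) (pow_ne_zero 2 hϖ0))
    have h1 := J.ha4 j
    rw [hA4, hA4, hA4, hς, hρ, hâ, hγ, hγ'] at h1
    have h2 : (α j * β j) ^ 2 = (s * P j) ^ 2 := by rw [hP]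
    linear_combination -h1 - (s ^ 2 * ϖ ^ 2 * A4 j) * hzb j -
      (2 * s * ϖ ^ 2 * (ρ j + ς j)) * hP j - (2 * ϖ ^ 4 * γ j * γ' j) * h2
  have e7 : ∀ j, E j ^ 2 * (2 * ρ (j + 1) * γ (j + 1) + Γ (j + 1)) +
      ϖ ^ 4 * F (j - 1) ^ 2 * (2 * ρ (j - 1) * γ (j - 1) + Γ (j - 1)) =
      ϖ * b j * (2 * ρ j * γ j + Γ j) + 2 * ρ j + 2 * ϖ ^ 3 * P j * η j + 2 * ϖ * â j * γ j := by
    intro j
    apply mul_left_cancel₀ (mul_ne_zero (mul_ne_zero hs0 (pow_ne_zero 2 (hαn j)))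
      (pow_ne_zero 2 hϖ0))
    have h1 := J.hg4 j
    rw [hΓ, hΓ, hΓ, hρ, hη, hâ, hγ] at h1
    have h3 : τ ^ 2 * ϖ ^ 2 * α (j + 1) ^ 2 = (E j * α j) ^ 2 := by rw [← r1]; ring
    have h4 : (τ⁻¹) ^ 2 * ϖ ^ 2 * α (j - 1) ^ 2 = (ϖ ^ 2 * F (j - 1) * α j) ^ 2 := by
      rw [← r2]; ring
    linear_combination h1 - (s * ϖ ^ 2 * (2 * ρ (j + 1) * γ (j + 1) + Γ (j + 1))) * h3 -
      (s * ϖ ^ 2 * (2 * ρ (j - 1) * γ (j - 1) + Γ (j - 1))) * h4 +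
      (s * ϖ ^ 3 * α j ^ 2 * (2 * ρ j * γ j + Γ j)) * hzb j + (2 * η j * α j ^ 2 * ϖ ^ 5) * hP j
  have e8 : ∀ j, E j * (ρ' (j + 1) - ρ' j) = ϖ ^ 2 * F (j - 1) * (ρ' j - ρ' (j - 1)) +
      2 * (A4 j + ϖ * P j * (2 * ρ j * γ j + Γ j) + ρ j * â j + ϖ * ς j * γ j * P j +
        ϖ ^ 4 * η j * γ' j * P j ^ 2) := by
    intro j
    apply mul_left_cancel₀ (mul_ne_zero (mul_ne_zero (pow_ne_zero 2 hs0) (hαn j))
      (pow_ne_zero 3 hϖ0))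
    have h1 := J.hp5 j
    rw [hρ', hρ', hρ', hA4, hΓ, hρ, hς, hγ, hη, hγ', hâ] at h1
    have h2 : (α j * β j) ^ 2 = (s * P j) ^ 2 := by rw [hP]
    linear_combination h1 - (s ^ 2 * ϖ ^ 3 * ρ' (j + 1)) * r1 j - (s ^ 2 * ϖ ^ 3 * ρ' (j - 1)) * r2 j +
      (s ^ 2 * ϖ ^ 3 * ρ' j * α j) * hzb j - (s ^ 2 * α j * ϖ ^ 3 * ρ' j) * e0 j +
      (2 * s * α j * ϖ ^ 4 * (2 * ρ j * γ j + Γ j) + 2 * s * α j * ϖ ^ 4 * ς j * γ j) * hP j +
      (2 * α j * ϖ ^ 7 * η j * γ' j) * h2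
  refine ⟨E, F, G, H, P, â, γ, γ', η, fun j => ρ (j + 1) - ρ j, fun j => ρ j + ς j - s4,
    fun j => A4 j - s4 * â j, Γ,
    fun j => ρ' (j + 1) - ρ' j - (ρ (j + 1) ^ 2 - ρ j ^ 2) / 2 - s4 * (ρ (j + 1) - ρ j),
    ⟨hb, hEF, hGH, hFn, hHn, e0, e0', eP, e1, e2, e2', e3, ?_, ?_, ?_, ?_, ?_⟩, ?_⟩
  · intro j
    have := e4 j
    simp only [sub_add_cancel]
    linear_combination this
  · intro j
    linear_combination e5' j - s4 * eP j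
  · intro j
    linear_combination e6 j - s4 * e1 j
  · intro j
    simp only [sub_add_cancel]
    linear_combination e7 j - 2 * ρ j * e2 j
  · intro j
    have h1 := e8 j
    have h2 := e4 j
    simp only [sub_add_cancel]
    linear_combination h1 - (ρ j + s4) * h2
  · have hsum : ∀ f : ZMod k → ℂ, ∑ j, f (j + 1) = ∑ j, f j := fun f =>
      Equiv.sum_comp (Equiv.addRight (1 : ZMod k)) f
    simp only [Finset.sum_sub_distrib, ← Finset.sum_div, ← Finset.mul_sum]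
    rw [hsum ρ', hsum ρ, hsum (fun j => ρ j ^ 2)]
    ring

end

end Pool.Agent.MPf2967f.Fin
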