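import Mathlib
import Pool.Agent.Lib.MP_f2967f_an.Fin.Reduce

set_option autoImplicit false

/-!
# Bounds for the conjugates of the parameter
-/

namespace Pool.Agent.MPf2967f.Fin

open Filter Topology

section

variable {k : ℕ} [NeZero k]

lemma cone_beta {ϖ : ℂ} {b : ZMod k → ℂ}
    (hb : ∀ j, b j ^ 2 = 1 + 2 * ϖ * (b (j + 1) + b (j - 1)))
    (hω : ‖ϖ‖ ≤ 1 / 100) {τ : ℂ} (hτ : 1 ≤ ‖τ‖) {β : ZMod k → ℂ} (hβ0 : β ≠ 0)
    (hβ' : ∀ j, ϖ * (τ⁻¹ * β (j + 1) + τ * β (j - 1)) = b j * β j) : ∀ j, β j ≠ 0 := by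
  have cβ : ∀ j, 0 < ‖β (-j)‖ ∧ 0.96 * ‖β (-j)‖ ≤ ‖ϖ * τ * β (-(j + 1))‖ := by
    refine cone (b := fun j => b (-j)) (α := fun j => β (-j)) ?_ hω hτ ?_ ?_
    · intro j
      have := hb (-j)
      rw [this]
      ring_nf
    · intro h0
      apply hβ0
      funext j
      have := congrFun h0 (-j)
      simpa using this
    · intro j
      have := hβ' (-j)
      rw [← this]
      ring_nf
  intro j
  have := norm_pos_iff.mp (cβ (-j)).1
  simpa using this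

lemma Jet.map {z : ZMod k → ℂ} {τ : ℂ} {α β a g g' p q h a4 g4 p5 : ZMod k → ℂ}
    (J : Jet k z τ α β a g g' p q h a4 g4 p5) (σ : ℂ →+* ℂ) :
    Jet k (fun j => σ (z j)) (σ τ) (fun j => σ (α j)) (fun j => σ (β j)) (fun j => σ (a j))
      (fun j => σ (g j)) (fun j => σ (g' j)) (fun j => σ (p j)) (fun j => σ (q j))
      (fun j => σ (h j)) (fun j => σ (a4 j)) (fun j => σ (g4 j)) (fun j => σ (p5 j)) := by
  have h2 : σ 2 = 2 := map_ofNat σ 2
  constructor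
  · intro j; simpa [h2] using congrArg σ (J.hα j)
  · intro j; simpa [h2] using congrArg σ (J.hβ j)
  · intro j; simpa [h2] using congrArg σ (J.ha j)
  · intro j; simpa [h2] using congrArg σ (J.hg j)
  · intro j; simpa [h2] using congrArg σ (J.hg' j)
  · intro j; simpa [h2] using congrArg σ (J.hp j)
  · intro j; simpa [h2] using congrArg σ (J.hq j)
  · intro j; simpa [h2] using congrArg σ (J.hh j)
  · intro j; simpa [h2] using congrArg σ (J.ha4 j)
  · intro j; simpa [h2] using congrArg σ (J.hg4 j)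
  · intro j; simpa [h2] using congrArg σ (J.hp5 j)

theorem bound_aux {c : ℂ} {z : ZMod k → ℂ} {N : ℕ → ℕ}
    (hz : ∀ j, z (j + 1) + z (j - 1) = z j ^ 2 + c)
    (hN : Tendsto N atTop atTop) (hAI : AI c k z N) (σ : ℂ →+* ℂ) (hc : 2500 ≤ ‖σ c‖)
    {τ : ℂˣ} {α β : ZMod k → ℂ} (hα0 : α ≠ 0) (hβ0 : β ≠ 0) (hE : Eigen k z τ α β)
    (hτ : 1 ≤ ‖σ (τ : ℂ)‖) : False := by
  obtain ⟨R, hR⟩ : ∃ R : ℂ, R ^ 2 = -(σ c) := by
    obtain ⟨R, hR⟩ := IsAlgClosed.exists_pow_nat_eq (-(σ c)) (n := 2) (by norm_num)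
    exact ⟨R, hR⟩
  have hRn : 50 ≤ ‖R‖ := by
    have h1 := congrArg norm hR
    rw [norm_pow, norm_neg] at h1
    by_contra hcon
    push Not at hcon
    nlinarith [norm_nonneg R]
  have hR0 : R ≠ 0 := by
    intro h
    rw [h, norm_zero] at hRn
    norm_num at hRn
  set ϖ : ℂ := 1 / (2 * R) with hϖ
  have hϖ0 : ϖ ≠ 0 := one_div_ne_zero (mul_ne_zero two_ne_zero hR0)
  have hω : ‖ϖ‖ ≤ 1 / 100 := by
    rw [hϖ, norm_div, norm_mul, Complex.norm_ofNat, norm_one]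
    apply one_div_le_one_div_of_le (by norm_num)
    linarith
  set b : ZMod k → ℂ := fun j => σ (z j) / R with hb'
  have hb : ∀ j, b j ^ 2 = 1 + 2 * ϖ * (b (j + 1) + b (j - 1)) := by
    intro j
    have h1 := congrArg σ (hz j)
    rw [map_add, map_add, map_pow] at h1
    simp only [hb', hϖ]
    field_simp
    linear_combination -h1 - hR
  have hzb : ∀ j, 2 * σ (z j) * ϖ = b j := by
    intro j
    simp only [hb', hϖ]
    field_simp
  have hα' : ∀ j, ϖ * (σ (τ : ℂ) * σ (α (j + 1)) + (σ (τ : ℂ))⁻¹ * σ (α (j - 1))) =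
      b j * σ (α j) := by
    intro j
    have h1 := congrArg σ (hE.hα j)
    simp only [map_add, map_mul, map_inv₀, map_ofNat] at h1
    rw [h1, ← hzb]
    ring
  have hβ' : ∀ j, ϖ * ((σ (τ : ℂ))⁻¹ * σ (β (j + 1)) + σ (τ : ℂ) * σ (β (j - 1))) =
      b j * σ (β j) := by
    intro j
    have h1 := congrArg σ (hE.hβ j)
    simp only [map_add, map_mul, map_inv₀, map_ofNat] at h1
    rw [h1, ← hzb]
    ring
  have hσ0 : ∀ f : ZMod k → ℂ, f ≠ 0 → (fun j => σ (f j)) ≠ 0 := by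
    intro f hf h0
    apply hf
    funext j
    exact (map_eq_zero σ).mp (congrFun h0 j)
  have hαj : ∀ j, α j ≠ 0 := by
    intro j h0
    have := (cone hb hω hτ (hσ0 α hα0) hα' j).1
    rw [h0, map_zero, norm_zero] at this
    exact lt_irrefl _ this
  have hβj : ∀ j, β j ≠ 0 := by
    intro j h0
    have := cone_beta hb hω hτ (hσ0 β hβ0) hβ' j
    apply this
    simp only [h0, map_zero]
  have hτ1 := tau_big hb hω hτ (hσ0 α hα0) hα'
  have hτm : ∀ m : ℕ, m ≠ 0 → (τ : ℂ) ^ m ≠ 1 := by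
    intro m hm h1
    have h2 := congrArg norm (congrArg σ h1)
    rw [map_pow, map_one, norm_pow, norm_one] at h2
    have := one_lt_pow₀ hτ1 hm
    linarith
  obtain ⟨S, hSτ, hSα, hSβ⟩ := exists_fsetup k c z hz τ α β hE hαj hβj hτm
  obtain ⟨a, g, g', p, q, h, a4, g4, p5, J⟩ := S.jet (S.defect_zero hN hAI)
  rw [hSτ, hSα, hSβ] at J
  obtain ⟨E, F, G, H, P, â, γ, γ', η, Δ, μ, A, Γ, d, L, hd⟩ := (J.map σ).loc hϖ0 hω hb hzb hτ
    (hσ0 α hα0) (hσ0 β hβ0)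
  exact L.sum_d_ne hω hd

/-- All conjugates of the parameter are bounded. -/
theorem conj_bound {c : ℂ} {z : ZMod k → ℂ} {N : ℕ → ℕ}
    (hz : ∀ j, z (j + 1) + z (j - 1) = z j ^ 2 + c)
    (hN : Tendsto N atTop atTop) (hAI : AI c k z N) (σ : ℂ →+* ℂ) : ‖σ c‖ < 2500 := by
  by_contra hc
  push Not at hc
  obtain ⟨τ, α, β, hα0, hβ0, hE⟩ := exists_eigen k z
  by_cases hτ : 1 ≤ ‖σ (τ : ℂ)‖
  · exact bound_aux hz hN hAI σ hc hα0 hβ0 hE hτ
  · push Not at hτ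
    refine bound_aux hz hN hAI σ hc hβ0 hα0 hE.symm ?_
    rw [Units.val_inv_eq_inv_val, map_inv₀, norm_inv]
    apply (one_le_inv₀ ?_).mpr hτ.le
    rw [norm_pos_iff, map_ne_zero]
    exact τ.ne_zero

end

end Pool.Agent.MPf2967f.Fin
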